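import Mathlib
import Pool.Agent.X142.Exist

/-!
Greedy random walk on a locally finite graph: definitions, a maximal inequality for
history dependent supermartingales, and: a.s. the neighbours of a vertex visited infinitely often
are visited infinitely often.
-/

open MeasureTheory Finset
open scoped ENNReal

namespace Pool.Agent.X142.GRW

variable {V : Type} [DecidableEq V]

/-- The set of edges visited at time `t`: the edges traversed in the steps `x s → x (s+1)`,
`s < t`. -/
def visited (x : ℕ → V) (t : ℕ) : Set (Sym2 V) := {e | ∃ s < t, e = s(x s, x (s + 1))}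

/-- The possible next positions of a walker at `v` when `σ` is the set of visited edges: the
neighbours of `v` joined to `v` by an unvisited edge, or all neighbours if there is none. -/
noncomputable def opts (G : SimpleGraph V) [G.LocallyFinite] (σ : Set (Sym2 V)) (v : V) :
    Finset V := by
  classical
  exact if ∃ w ∈ G.neighborFinset v, s(v, w) ∉ σ
    then (G.neighborFinset v).filter (fun w => s(v, w) ∉ σ) else G.neighborFinset v

/-- The transition probabilities of the greedy random walk, given the path up to time `t`. -/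
noncomputable def prob (G : SimpleGraph V) [G.LocallyFinite] (x : ℕ → V) (t : ℕ) (y : V) :
    ℝ≥0∞ :=
  if y ∈ opts G (visited x t) (x t) then ((opts G (visited x t) (x t)).card : ℝ≥0∞)⁻¹ else 0

/-- `X` is a greedy random walk on `G` started at `o`. -/
structure IsGRW (G : SimpleGraph V) [G.LocallyFinite] {Ω : Type} [MeasurableSpace Ω]
    (P : Measure Ω) (X : ℕ → Ω → V) (o : V) : Prop where
  meas : ∀ t v, MeasurableSet {ω | X t ω = v}
  start : P {ω | X 0 ω = o} = 1
  step : ∀ t (x : ℕ → V) y, P {ω | (∀ s ≤ t, X s ω = x s) ∧ X (t + 1) ω = y} =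
    P {ω | ∀ s ≤ t, X s ω = x s} * prob G x t y

/-- The paths of positive probability. -/
def Legal (G : SimpleGraph V) [G.LocallyFinite] (o : V) (x : ℕ → V) (t : ℕ) : Prop :=
  x 0 = o ∧ ∀ s < t, x (s + 1) ∈ opts G (visited x s) (x s)

lemma visited_congr {x x' : ℕ → V} {t : ℕ} (h : ∀ s ≤ t, x s = x' s) :
    visited x t = visited x' t := by
  ext e
  constructor
  · rintro ⟨s, hs, rfl⟩
    exact ⟨s, hs, by rw [h s hs.le, h (s + 1) hs]⟩
  · rintro ⟨s, hs, rfl⟩
    exact ⟨s, hs, by rw [h s hs.le, h (s + 1) hs]⟩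

omit [DecidableEq V] in
lemma visited_succ (x : ℕ → V) (t : ℕ) :
    visited x (t + 1) = insert s(x t, x (t + 1)) (visited x t) := by
  ext e
  constructor
  · rintro ⟨s, hs, rfl⟩
    rcases Nat.lt_succ_iff_lt_or_eq.mp hs with h | h
    · exact Or.inr ⟨s, h, rfl⟩
    · subst h
      exact Or.inl rfl
  · rintro (rfl | ⟨s, hs, rfl⟩)
    · exact ⟨t, Nat.lt_succ_self t, rfl⟩
    · exact ⟨s, Nat.lt_succ_of_lt hs, rfl⟩

lemma opts_nonempty (G : SimpleGraph V) [G.LocallyFinite] (σ : Set (Sym2 V)) (v : V)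
    (h : (G.neighborFinset v).Nonempty) : (opts G σ v).Nonempty := by
  classical
  unfold opts
  split_ifs with h1
  · obtain ⟨w, hw, hw2⟩ := h1
    exact ⟨w, Finset.mem_filter.mpr ⟨hw, hw2⟩⟩
  · exact h

lemma mem_opts_of_fresh (G : SimpleGraph V) [G.LocallyFinite] (σ : Set (Sym2 V)) (v : V)
    (h : ∃ w ∈ G.neighborFinset v, s(v, w) ∉ σ) (y : V) :
    y ∈ opts G σ v ↔ y ∈ G.neighborFinset v ∧ s(v, y) ∉ σ := by
  classical
  unfold opts
  rw [if_pos h, Finset.mem_filter]

lemma opts_of_not_fresh (G : SimpleGraph V) [G.LocallyFinite] (σ : Set (Sym2 V)) (v : V)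
    (h : ¬ ∃ w ∈ G.neighborFinset v, s(v, w) ∉ σ) : opts G σ v = G.neighborFinset v := by
  classical
  unfold opts
  rw [if_neg h]

lemma opts_subset (G : SimpleGraph V) [G.LocallyFinite] (σ : Set (Sym2 V)) (v : V) :
    opts G σ v ⊆ G.neighborFinset v := by
  classical
  unfold opts
  split_ifs with h1
  · exact Finset.filter_subset _ _
  · exact subset_rfl

lemma prob_congr (G : SimpleGraph V) [G.LocallyFinite] {x x' : ℕ → V} {t : ℕ} (y : V)
    (h : ∀ s ≤ t, x s = x' s) : prob G x t y = prob G x' t y := by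
  unfold prob
  rw [visited_congr h, h t le_rfl]

lemma legal_congr (G : SimpleGraph V) [G.LocallyFinite] (o : V) {x x' : ℕ → V} {t : ℕ}
    (h : ∀ s ≤ t, x s = x' s) (hL : Legal G o x t) : Legal G o x' t := by
  refine ⟨by rw [← h 0 (Nat.zero_le _)]; exact hL.1, fun s hs => ?_⟩
  have := hL.2 s hs
  rw [visited_congr (fun r hr => h r (hr.trans hs.le)), h s hs.le, h (s + 1) hs] at this
  exact this

lemma legal_update (G : SimpleGraph V) [G.LocallyFinite] (o : V) {x : ℕ → V} {t : ℕ}
    (hL : Legal G o x t) {y : V} (hy : y ∈ opts G (visited x t) (x t)) :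
    Legal G o (Function.update x (t + 1) y) (t + 1) := by
  have hag : ∀ s ≤ t, x s = Function.update x (t + 1) y s := by
    intro s hs
    rw [Function.update_of_ne (by omega)]
  refine ⟨by rw [← hag 0 (Nat.zero_le _)]; exact hL.1, fun s hs => ?_⟩
  rcases Nat.lt_succ_iff_lt_or_eq.mp hs with h | h
  · exact (legal_congr G o hag hL).2 s h
  · subst h
    rw [Function.update_self, ← visited_congr hag, ← hag s le_rfl]
    exact hy

section Process

variable {G : SimpleGraph V} [G.LocallyFinite] {Ω : Type} [MeasurableSpace Ω]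
  {P : Measure Ω} [IsProbabilityMeasure P] {X : ℕ → Ω → V} {o : V}

/-- the cylinder of a path -/
def cyl (X : ℕ → Ω → V) (x : ℕ → V) (t : ℕ) : Set Ω := {ω | ∀ s ≤ t, X s ω = x s}

omit [MeasurableSpace Ω] [DecidableEq V] in
lemma cyl_congr {x x' : ℕ → V} {t : ℕ} (h : ∀ s ≤ t, x s = x' s) :
    cyl X x t = cyl X x' t := by
  ext ω
  constructor
  · intro hω s hs
    rw [hω s hs, h s hs]
  · intro hω s hs
    rw [hω s hs, h s hs]

omit [MeasurableSpace Ω] in
lemma cyl_update (x : ℕ → V) (t : ℕ) (y : V) :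
    cyl X (Function.update x (t + 1) y) (t + 1) = {ω | (∀ s ≤ t, X s ω = x s) ∧ X (t + 1) ω = y} := by
  ext ω
  constructor
  · intro hω
    refine ⟨fun s hs => ?_, ?_⟩
    · rw [hω s (by omega), Function.update_of_ne (by omega)]
    · rw [hω (t + 1) le_rfl, Function.update_self]
  · rintro ⟨h1, h2⟩ s hs
    by_cases h : s = t + 1
    · subst h
      rw [h2, Function.update_self]
    · rw [h1 s (by omega), Function.update_of_ne h]

lemma measure_cyl_update (h : IsGRW G P X o) (x : ℕ → V) (t : ℕ) (y : V) :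
    P (cyl X (Function.update x (t + 1) y) (t + 1)) = P (cyl X x t) * prob G x t y := by
  rw [cyl_update]
  exact h.step t x y

/-- paths which are not legal have probability zero -/
lemma cyl_null (h : IsGRW G P X o) (x : ℕ → V) (t : ℕ) (hL : ¬ Legal G o x t) :
    P (cyl X x t) = 0 := by
  induction t with
  | zero =>
    have h0 : x 0 ≠ o := by
      intro h0
      exact hL ⟨h0, fun s hs => absurd hs (Nat.not_lt_zero s)⟩
    have h1 : P {ω | X 0 ω = o}ᶜ = 0 := by
      rw [prob_compl_eq_zero_iff (h.meas 0 o)]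
      exact h.start
    refine measure_mono_null ?_ h1
    intro ω hω hω2
    exact h0 ((hω 0 le_rfl).symm.trans hω2)
  | succ t ih =>
    by_cases hLt : Legal G o x t
    · have h1 : x (t + 1) ∉ opts G (visited x t) (x t) := by
        intro h1
        apply hL
        refine ⟨hLt.1, fun s hs => ?_⟩
        rcases Nat.lt_succ_iff_lt_or_eq.mp hs with h | h
        · exact hLt.2 s h
        · subst h
          exact h1
      have h2 : cyl X x (t + 1) = {ω | (∀ s ≤ t, X s ω = x s) ∧ X (t + 1) ω = x (t + 1)} := by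
        ext ω
        constructor
        · intro hω
          exact ⟨fun s hs => hω s (by omega), hω (t + 1) le_rfl⟩
        · rintro ⟨h1, h2⟩ s hs
          by_cases h : s = t + 1
          · subst h
            exact h2
          · exact h1 s (by omega)
      rw [h2, h.step t x (x (t + 1)), prob, if_neg h1, mul_zero]
    · refine measure_mono_null ?_ (ih hLt)
      intro ω hω s hs
      exact hω s (by omega)

lemma measurableSet_cyl (h : IsGRW G P X o) (x : ℕ → V) (t : ℕ) : MeasurableSet (cyl X x t) := by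
  have : cyl X x t = ⋂ s ∈ Finset.range (t + 1), {ω | X s ω = x s} := by
    ext ω
    simp [cyl, Nat.lt_succ_iff]
  rw [this]
  exact Finset.measurableSet_biInter _ (fun s _ => h.meas s (x s))

/-- the next position is one of the options -/
lemma next_mem (h : IsGRW G P X o) (hne : ∀ v, (G.neighborFinset v).Nonempty) (x : ℕ → V) (t : ℕ) :
    P (cyl X x t ∩ {ω | X (t + 1) ω ∉ opts G (visited x t) (x t)}) = 0 := by
  set O := opts G (visited x t) (x t) with hO
  have hOne : O.Nonempty := opts_nonempty G _ _ (hne _)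
  have hcard : (O.card : ℝ≥0∞) ≠ 0 := by
    have := Finset.card_pos.mpr hOne
    exact_mod_cast this.ne'
  have h1 : cyl X x t = (⋃ y ∈ O, cyl X (Function.update x (t + 1) y) (t + 1)) ∪
      (cyl X x t ∩ {ω | X (t + 1) ω ∉ O}) := by
    ext ω
    simp only [Set.mem_union, Set.mem_iUnion, exists_prop, Set.mem_inter_iff, Set.mem_setOf_eq]
    constructor
    · intro hω
      by_cases hm : X (t + 1) ω ∈ O
      · left
        refine ⟨_, hm, ?_⟩
        rw [cyl_update]
        exact ⟨hω, rfl⟩
      · right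
        exact ⟨hω, hm⟩
    · rintro (⟨y, _, hy⟩ | ⟨hω, _⟩)
      · rw [cyl_update] at hy
        exact hy.1
      · exact hω
  have hdisj : Disjoint (⋃ y ∈ O, cyl X (Function.update x (t + 1) y) (t + 1))
      (cyl X x t ∩ {ω | X (t + 1) ω ∉ O}) := by
    rw [Set.disjoint_left]
    intro ω hω hω2
    simp only [Set.mem_iUnion, exists_prop] at hω
    obtain ⟨y, hy, hy2⟩ := hω
    rw [cyl_update] at hy2
    apply hω2.2
    rw [hy2.2]
    exact hy
  have hpd : (↑O : Set V).PairwiseDisjoint
      (fun y => cyl X (Function.update x (t + 1) y) (t + 1)) := by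
    intro y _ y' _ hne
    rw [Function.onFun, Set.disjoint_left]
    intro ω h1 h2
    rw [cyl_update] at h1 h2
    exact hne (h1.2.symm.trans h2.2)
  have hm : ∀ y ∈ O, MeasurableSet (cyl X (Function.update x (t + 1) y) (t + 1)) :=
    fun y _ => measurableSet_cyl h _ _
  have h2 : P (⋃ y ∈ O, cyl X (Function.update x (t + 1) y) (t + 1)) = P (cyl X x t) := by
    rw [measure_biUnion_finset hpd hm]
    have : ∀ y ∈ O, P (cyl X (Function.update x (t + 1) y) (t + 1))
        = P (cyl X x t) * (O.card : ℝ≥0∞)⁻¹ := by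
      intro y hy
      rw [measure_cyl_update h, prob, if_pos hy]
    rw [Finset.sum_congr rfl this, Finset.sum_const, nsmul_eq_mul, mul_comm, mul_assoc,
      ENNReal.inv_mul_cancel hcard (by simp), mul_one]
  have h3 := congrArg P h1
  rw [measure_union' hdisj (Finset.measurableSet_biUnion _ hm), h2] at h3
  have hfin : P (cyl X x t) ≠ ∞ := measure_ne_top _ _
  have h4 : P (cyl X x t) + 0 = P (cyl X x t) + P (cyl X x t ∩ {ω | X (t + 1) ω ∉ O}) := by
    rw [add_zero]
    exact h3
  exact (WithTop.add_left_cancel hfin h4).symm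

/-- **Maximal inequality.** If `φ` is a history dependent nonnegative supermartingale before the
first time `≥ t0` at which `Good` or `Bad` holds, and `φ ≥ 1` on `Good`, then the conditional
probability of reaching `Good` before `Bad` is at most `φ`. -/
theorem maximal_fin (h : IsGRW G P X o) (hne : ∀ v, (G.neighborFinset v).Nonempty)
    (Good Bad : (ℕ → V) → ℕ → Prop) (φ : (ℕ → V) → ℕ → ℝ≥0∞) (t0 : ℕ)
    (hGc : ∀ x x' t, (∀ s ≤ t, x s = x' s) → Good x t → Good x' t)
    (hBc : ∀ x x' t, (∀ s ≤ t, x s = x' s) → Bad x t → Bad x' t)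
    (hgood : ∀ x t, t0 ≤ t → Legal G o x t → Good x t → 1 ≤ φ x t)
    (hsup : ∀ x t, t0 ≤ t → Legal G o x t → ¬ Good x t → ¬ Bad x t →
      ∑ y ∈ opts G (visited x t) (x t), φ (Function.update x (t + 1) y) (t + 1)
        ≤ ((opts G (visited x t) (x t)).card : ℝ≥0∞) * φ x t)
    (T : ℕ) : ∀ (x : ℕ → V) (t : ℕ), t0 ≤ t → Legal G o x t →
      P (cyl X x t ∩ {ω | ∃ s, t ≤ s ∧ s ≤ t + T ∧ Good (fun r => X r ω) s ∧
        ∀ r, t ≤ r → r < s → ¬ Bad (fun r => X r ω) r}) ≤ P (cyl X x t) * φ x t := by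
  induction T with
  | zero =>
    intro x t ht hL
    by_cases hG : Good x t
    · calc _ ≤ P (cyl X x t) := measure_mono Set.inter_subset_left
        _ ≤ P (cyl X x t) * φ x t := le_mul_of_one_le_right' (hgood x t ht hL hG)
    · have : cyl X x t ∩ {ω | ∃ s, t ≤ s ∧ s ≤ t + 0 ∧ Good (fun r => X r ω) s ∧
          ∀ r, t ≤ r → r < s → ¬ Bad (fun r => X r ω) r} = ∅ := by
        rw [Set.eq_empty_iff_forall_notMem]
        rintro ω ⟨hω, s, h1, h2, h3, _⟩
        have hs : s = t := by omega
        subst hs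
        exact hG (hGc _ _ _ hω h3)
      rw [this, measure_empty]
      exact zero_le
  | succ T ih =>
    intro x t ht hL
    by_cases hG : Good x t
    · calc _ ≤ P (cyl X x t) := measure_mono Set.inter_subset_left
        _ ≤ P (cyl X x t) * φ x t := le_mul_of_one_le_right' (hgood x t ht hL hG)
    by_cases hB : Bad x t
    · have : cyl X x t ∩ {ω | ∃ s, t ≤ s ∧ s ≤ t + (T + 1) ∧ Good (fun r => X r ω) s ∧
          ∀ r, t ≤ r → r < s → ¬ Bad (fun r => X r ω) r} = ∅ := by
        rw [Set.eq_empty_iff_forall_notMem]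
        rintro ω ⟨hω, s, h1, h2, h3, h4⟩
        rcases h1.eq_or_lt with h5 | h5
        · subst h5
          exact hG (hGc _ _ _ hω h3)
        · exact h4 t le_rfl h5 (hBc _ _ _ (fun r hr => (hω r hr).symm) hB)
      rw [this, measure_empty]
      exact zero_le
    set O := opts G (visited x t) (x t) with hO
    have hOne : O.Nonempty := opts_nonempty G _ _ (hne _)
    have hcard : (O.card : ℝ≥0∞) ≠ 0 := by
      have := Finset.card_pos.mpr hOne
      exact_mod_cast this.ne'
    have hsub : cyl X x t ∩ {ω | ∃ s, t ≤ s ∧ s ≤ t + (T + 1) ∧ Good (fun r => X r ω) s ∧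
          ∀ r, t ≤ r → r < s → ¬ Bad (fun r => X r ω) r} ⊆
        (⋃ y ∈ O, (cyl X (Function.update x (t + 1) y) (t + 1) ∩
          {ω | ∃ s, t + 1 ≤ s ∧ s ≤ t + 1 + T ∧ Good (fun r => X r ω) s ∧
            ∀ r, t + 1 ≤ r → r < s → ¬ Bad (fun r => X r ω) r})) ∪
        (cyl X x t ∩ {ω | X (t + 1) ω ∉ O}) := by
      rintro ω ⟨hω, s, h1, h2, h3, h4⟩
      by_cases hm : X (t + 1) ω ∈ O
      · left
        simp only [Set.mem_iUnion, exists_prop]
        refine ⟨_, hm, ?_, ?_⟩
        · rw [cyl_update]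
          exact ⟨hω, rfl⟩
        · rcases h1.eq_or_lt with h5 | h5
          · subst h5
            exact absurd (hGc _ _ _ hω h3) hG
          · exact ⟨s, h5, by omega, h3, fun r hr hr2 => h4 r (by omega) hr2⟩
      · right
        exact ⟨hω, hm⟩
    calc P _ ≤ P (⋃ y ∈ O, (cyl X (Function.update x (t + 1) y) (t + 1) ∩
          {ω | ∃ s, t + 1 ≤ s ∧ s ≤ t + 1 + T ∧ Good (fun r => X r ω) s ∧
            ∀ r, t + 1 ≤ r → r < s → ¬ Bad (fun r => X r ω) r})) +
          P (cyl X x t ∩ {ω | X (t + 1) ω ∉ O}) := (measure_mono hsub).trans (measure_union_le _ _)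
      _ ≤ ∑ y ∈ O, P (cyl X x t) * (O.card : ℝ≥0∞)⁻¹ * φ (Function.update x (t + 1) y) (t + 1) := by
          rw [next_mem h hne, add_zero]
          refine (measure_biUnion_finset_le _ _).trans ?_
          apply Finset.sum_le_sum
          intro y hy
          refine (ih _ (t + 1) (by omega) (legal_update G o hL hy)).trans ?_
          rw [measure_cyl_update h, prob, if_pos hy]
      _ = P (cyl X x t) * (O.card : ℝ≥0∞)⁻¹ * ∑ y ∈ O, φ (Function.update x (t + 1) y) (t + 1) := by
          rw [Finset.mul_sum]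
      _ ≤ P (cyl X x t) * (O.card : ℝ≥0∞)⁻¹ * ((O.card : ℝ≥0∞) * φ x t) := by
          gcongr
          exact hsup x t ht hL hG hB
      _ = P (cyl X x t) * φ x t := by
          rw [mul_assoc, ← mul_assoc (O.card : ℝ≥0∞)⁻¹, ENNReal.inv_mul_cancel hcard (by simp),
            one_mul]

/-- The maximal inequality without a time horizon. -/
theorem maximal (h : IsGRW G P X o) (hne : ∀ v, (G.neighborFinset v).Nonempty)
    (Good Bad : (ℕ → V) → ℕ → Prop) (φ : (ℕ → V) → ℕ → ℝ≥0∞) (t0 : ℕ)
    (hGc : ∀ x x' t, (∀ s ≤ t, x s = x' s) → Good x t → Good x' t)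
    (hBc : ∀ x x' t, (∀ s ≤ t, x s = x' s) → Bad x t → Bad x' t)
    (hgood : ∀ x t, t0 ≤ t → Legal G o x t → Good x t → 1 ≤ φ x t)
    (hsup : ∀ x t, t0 ≤ t → Legal G o x t → ¬ Good x t → ¬ Bad x t →
      ∑ y ∈ opts G (visited x t) (x t), φ (Function.update x (t + 1) y) (t + 1)
        ≤ ((opts G (visited x t) (x t)).card : ℝ≥0∞) * φ x t)
    (x : ℕ → V) (t : ℕ) (ht : t0 ≤ t) (hL : Legal G o x t) :
      P (cyl X x t ∩ {ω | ∃ s, t ≤ s ∧ Good (fun r => X r ω) s ∧
        ∀ r, t ≤ r → r < s → ¬ Bad (fun r => X r ω) r}) ≤ P (cyl X x t) * φ x t := by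
  have h1 : (cyl X x t ∩ {ω | ∃ s, t ≤ s ∧ Good (fun r => X r ω) s ∧
        ∀ r, t ≤ r → r < s → ¬ Bad (fun r => X r ω) r}) =
      ⋃ T : ℕ, (cyl X x t ∩ {ω | ∃ s, t ≤ s ∧ s ≤ t + T ∧ Good (fun r => X r ω) s ∧
        ∀ r, t ≤ r → r < s → ¬ Bad (fun r => X r ω) r}) := by
    ext ω
    simp only [Set.mem_iUnion, Set.mem_inter_iff, Set.mem_setOf_eq]
    constructor
    · rintro ⟨hω, s, h1, h2, h3⟩
      exact ⟨s, hω, s, h1, by omega, h2, h3⟩
    · rintro ⟨T, hω, s, h1, _, h2, h3⟩
      exact ⟨hω, s, h1, h2, h3⟩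
  rw [h1, Monotone.measure_iUnion]
  · exact iSup_le (fun T => maximal_fin h hne Good Bad φ t0 hGc hBc hgood hsup T x t ht hL)
  · intro T T' hT ω hω
    obtain ⟨hω, s, h1, h2, h3⟩ := hω
    exact ⟨hω, s, h1, by omega, h3⟩

/-- A set is null if its intersection with each legal cylinder at time `t` is null. -/
lemma null_of_cyl [Countable V] (h : IsGRW G P X o) (A : Set Ω) (t : ℕ)
    (hA : ∀ x, Legal G o x t → P (cyl X x t ∩ A) = 0) : P A = 0 := by
  classical
  let ext : (Fin (t + 1) → V) → ℕ → V := fun z s => if hs : s < t + 1 then z ⟨s, hs⟩ else o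
  have hcov : A ⊆ ⋃ z : Fin (t + 1) → V, (cyl X (ext z) t ∩ A) := by
    intro ω hω
    rw [Set.mem_iUnion]
    refine ⟨fun i => X i ω, fun s hs => ?_, hω⟩
    show _ = if hs : s < t + 1 then X s ω else o
    rw [dif_pos (by omega)]
  refine measure_mono_null hcov (measure_iUnion_null fun z => ?_)
  by_cases hL : Legal G o (ext z) t
  · exact hA _ hL
  · exact measure_mono_null Set.inter_subset_left (cyl_null h _ _ hL)

end Process

end Pool.Agent.X142.GRW
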