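import Mathlib
import Pool.Agent.X142.GRW.Basic

/-!
A.s. the neighbours of a vertex visited infinitely often by the greedy random walk are visited
infinitely often.
-/

open MeasureTheory Finset Filter
open scoped ENNReal

namespace Pool.Agent.X142.GRW

variable {V : Type} [DecidableEq V]

/-- the neighbours joined to `a` by an unvisited edge -/
noncomputable def unvSet (G : SimpleGraph V) [G.LocallyFinite] (a : V) (σ : Set (Sym2 V)) :
    Finset V := by
  classical
  exact (G.neighborFinset a).filter (fun w => s(a, w) ∉ σ)

omit [DecidableEq V] in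
lemma mem_unvSet (G : SimpleGraph V) [G.LocallyFinite] (a : V) (σ : Set (Sym2 V)) (w : V) :
    w ∈ unvSet G a σ ↔ w ∈ G.neighborFinset a ∧ s(a, w) ∉ σ := by
  classical
  unfold unvSet
  rw [Finset.mem_filter]

/-- number of unvisited edges at `a` -/
noncomputable def unv (G : SimpleGraph V) [G.LocallyFinite] (a : V) (σ : Set (Sym2 V)) : ℕ :=
  (unvSet G a σ).card

omit [DecidableEq V] in
lemma unv_le (G : SimpleGraph V) [G.LocallyFinite] (a : V) (σ : Set (Sym2 V)) :
    unv G a σ ≤ (G.neighborFinset a).card := by
  unfold unv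
  apply Finset.card_le_card
  intro w hw
  exact ((mem_unvSet G a σ w).mp hw).1

omit [DecidableEq V] in
lemma unv_mono (G : SimpleGraph V) [G.LocallyFinite] (a : V) {σ τ : Set (Sym2 V)} (h : σ ⊆ τ) :
    unv G a τ ≤ unv G a σ := by
  unfold unv
  apply Finset.card_le_card
  intro w hw
  rw [mem_unvSet] at hw ⊢
  exact ⟨hw.1, fun h2 => hw.2 (h h2)⟩

omit [DecidableEq V] in
lemma unv_insert_lt (G : SimpleGraph V) [G.LocallyFinite] (a y : V) {σ : Set (Sym2 V)}
    (hy : y ∈ G.neighborFinset a) (hσ : s(a, y) ∉ σ) :
    unv G a (insert s(a, y) σ) + 1 ≤ unv G a σ := by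
  unfold unv
  apply Finset.card_lt_card
  rw [Finset.ssubset_iff_of_subset]
  · exact ⟨y, (mem_unvSet G a σ y).mpr ⟨hy, hσ⟩, fun h => ((mem_unvSet G a _ y).mp h).2
      (Set.mem_insert _ _)⟩
  · intro w hw
    rw [mem_unvSet] at hw ⊢
    exact ⟨hw.1, fun h2 => hw.2 (Set.mem_insert_of_mem _ h2)⟩

/-- number of departures from `a` in `[m, t)` -/
def cnt (a : V) (m : ℕ) (x : ℕ → V) (t : ℕ) : ℕ := ((Finset.Ico m t).filter (fun s => x s = a)).card

lemma cnt_congr (a : V) (m : ℕ) {x x' : ℕ → V} {t : ℕ} (h : ∀ s ≤ t, x s = x' s) :
    cnt a m x t = cnt a m x' t := by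
  unfold cnt
  congr 1
  apply Finset.filter_congr
  intro s hs
  rw [h s (Finset.mem_Ico.mp hs).2.le]

lemma cnt_succ (a : V) (m : ℕ) (x : ℕ → V) (t : ℕ) (hm : m ≤ t) :
    cnt a m x (t + 1) = cnt a m x t + if x t = a then 1 else 0 := by
  unfold cnt
  have : Finset.Ico m (t + 1) = insert t (Finset.Ico m t) := by
    ext s
    simp only [Finset.mem_Ico, Finset.mem_insert]
    omega
  rw [this, Finset.filter_insert]
  split_ifs with h
  · rw [Finset.card_insert_of_notMem]
    simp
  · rfl

section Process

variable {G : SimpleGraph V} [G.LocallyFinite] {Ω : Type} [MeasurableSpace Ω]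
  {P : Measure Ω} [IsProbabilityMeasure P] {X : ℕ → Ω → V} {o : V}

/-- The supermartingale for the proof. -/
noncomputable def phi (G : SimpleGraph V) [G.LocallyFinite] (a b : V) (m j : ℕ) (θ : ℝ≥0∞)
    (x : ℕ → V) (t : ℕ) : ℝ≥0∞ :=
  if m < t ∧ x t = b then 0 else (θ⁻¹) ^ j * θ ^ (cnt a m x t + unv G a (visited x t))

lemma theta_exists (d : ℕ) (hd : 1 ≤ d) : ∃ θ : ℝ≥0∞, 1 < θ ∧ θ ≠ ∞ ∧
    ((d - 1 : ℕ) : ℝ≥0∞) * θ ≤ d := by
  refine ⟨ENNReal.ofReal ((d + 1 : ℝ) / d), ?_, ENNReal.ofReal_ne_top, ?_⟩
  · have hd0 : (0 : ℝ) < d := by exact_mod_cast hd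
    rw [← ENNReal.ofReal_one, ENNReal.ofReal_lt_ofReal_iff_of_nonneg (by norm_num), lt_div_iff₀ hd0]
    linarith
  · have hd0 : (0 : ℝ) < d := by exact_mod_cast hd
    rw [← ENNReal.ofReal_natCast, ← ENNReal.ofReal_mul (by positivity), ← ENNReal.ofReal_natCast]
    apply ENNReal.ofReal_le_ofReal
    rw [Nat.cast_sub hd, mul_div_assoc', div_le_iff₀ hd0]
    push_cast
    nlinarith

/-- After time `m`, the walk does not visit `a` more and more often without visiting `b`. -/
theorem no_many_visits (h : IsGRW G P X o) (hne : ∀ v, (G.neighborFinset v).Nonempty) (a b : V)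
    (hab : G.Adj a b) (m : ℕ) (x : ℕ → V) (hL : Legal G o x m) :
    P (cyl X x m ∩ {ω | (∃ᶠ t in atTop, X t ω = a) ∧ ∀ t, m < t → X t ω ≠ b}) = 0 := by
  set d := (G.neighborFinset a).card with hd
  have hb : b ∈ G.neighborFinset a := by
    rw [SimpleGraph.mem_neighborFinset]
    exact hab
  have hd1 : 1 ≤ d := Finset.card_pos.mpr ⟨b, hb⟩
  obtain ⟨θ, hθ1, hθt, hθd⟩ := theta_exists d hd1
  have hθ0 : θ ≠ 0 := (zero_lt_one.trans hθ1).ne'
  have key : ∀ j : ℕ, P (cyl X x m ∩ {ω | (∃ᶠ t in atTop, X t ω = a) ∧ ∀ t, m < t → X t ω ≠ b})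
      ≤ (θ⁻¹) ^ j * θ ^ d := by
    intro j
    have hmax := maximal h hne (fun x t => m ≤ t ∧ j ≤ cnt a m x t ∧ ∀ s, m < s → s ≤ t → x s ≠ b)
      (fun x t => m < t ∧ x t = b) (phi G a b m j θ) m
      (by
        rintro x x' t hxx ⟨h0, h1, h2⟩
        refine ⟨h0, by rw [← cnt_congr a m hxx]; exact h1, fun s hs hst => ?_⟩
        rw [← hxx s hst]
        exact h2 s hs hst)
      (by
        rintro x x' t hxx ⟨h0, h1⟩
        exact ⟨h0, by rw [← hxx t le_rfl]; exact h1⟩)
      (by
        rintro x t ht _ ⟨_, h1, h2⟩
        unfold phi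
        rw [if_neg]
        · calc (1 : ℝ≥0∞) = (θ⁻¹) ^ j * θ ^ j := by
                rw [← mul_pow, ENNReal.inv_mul_cancel hθ0 hθt, one_pow]
            _ ≤ _ := by
                gcongr
                · exact hθ1.le
                · omega
        · rintro ⟨h3, h4⟩
          exact h2 t h3 le_rfl h4)
      (by
        intro x t ht hLt _ hB
        have hphi : phi G a b m j θ x t
            = (θ⁻¹) ^ j * θ ^ (cnt a m x t + unv G a (visited x t)) := by
          unfold phi
          rw [if_neg hB]
        have hag : ∀ y, ∀ s ≤ t, x s = Function.update x (t + 1) y s := by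
          intro y s hs
          rw [Function.update_of_ne (by omega)]
        have hvis : ∀ y, visited (Function.update x (t + 1) y) (t + 1)
            = insert s(x t, y) (visited x t) := by
          intro y
          rw [visited_succ, ← visited_congr (hag y), ← hag y t le_rfl, Function.update_self]
        have hcnt : ∀ y, cnt a m (Function.update x (t + 1) y) (t + 1)
            = cnt a m x t + if x t = a then 1 else 0 := by
          intro y
          rw [cnt_succ a m _ t ht, ← cnt_congr a m (hag y), ← hag y t le_rfl]
        have hphile : ∀ y, phi G a b m j θ (Function.update x (t + 1) y) (t + 1)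
            ≤ (θ⁻¹) ^ j * θ ^ (cnt a m x t + (if x t = a then 1 else 0) +
              unv G a (insert s(x t, y) (visited x t))) := by
          intro y
          unfold phi
          rw [hcnt, hvis]
          by_cases h1 : m < t + 1 ∧ Function.update x (t + 1) y (t + 1) = b
          · rw [if_pos h1]
            exact zero_le
          · rw [if_neg h1]
        by_cases hxa : x t = a
        · by_cases hu : ∃ w ∈ G.neighborFinset (x t), s(x t, w) ∉ visited x t
          · -- fresh edges available
            have hle : ∀ y ∈ opts G (visited x t) (x t),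
                phi G a b m j θ (Function.update x (t + 1) y) (t + 1) ≤ phi G a b m j θ x t := by
              intro y hy
              rw [mem_opts_of_fresh G _ _ hu] at hy
              refine (hphile y).trans ?_
              rw [hphi, if_pos hxa]
              refine mul_le_mul' le_rfl (pow_le_pow_right₀ hθ1.le ?_)
              rw [hxa] at hy ⊢
              have := unv_insert_lt G a y hy.1 hy.2
              omega
            calc _ ≤ ∑ _y ∈ opts G (visited x t) (x t), phi G a b m j θ x t :=
                  Finset.sum_le_sum hle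
              _ = _ := by rw [Finset.sum_const, nsmul_eq_mul]
          · -- all edges visited
            have hO : opts G (visited x t) (x t) = G.neighborFinset (x t) :=
              opts_of_not_fresh G _ _ hu
            rw [hO, hxa]
            have hunv : ∀ y, unv G a (insert s(x t, y) (visited x t)) ≤ unv G a (visited x t) :=
              fun y => unv_mono G a (Set.subset_insert _ _)
            rw [← Finset.add_sum_erase _ _ hb]
            have hb0 : phi G a b m j θ (Function.update x (t + 1) b) (t + 1) = 0 := by
              unfold phi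
              rw [if_pos]
              exact ⟨by omega, Function.update_self _ _ _⟩
            rw [hb0, zero_add]
            calc ∑ y ∈ (G.neighborFinset a).erase b,
                  phi G a b m j θ (Function.update x (t + 1) y) (t + 1)
                ≤ ∑ _y ∈ (G.neighborFinset a).erase b, θ * phi G a b m j θ x t := by
                  apply Finset.sum_le_sum
                  intro y _
                  refine (hphile y).trans ?_
                  rw [hphi, if_pos hxa]
                  calc (θ⁻¹) ^ j * θ ^ (cnt a m x t + 1 + unv G a (insert s(x t, y) (visited x t)))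
                      ≤ (θ⁻¹) ^ j * θ ^ (cnt a m x t + unv G a (visited x t) + 1) := by
                        refine mul_le_mul' le_rfl (pow_le_pow_right₀ hθ1.le ?_)
                        have := hunv y
                        omega
                    _ = _ := by
                        rw [pow_succ]
                        ring
              _ = ((d - 1 : ℕ) : ℝ≥0∞) * θ * phi G a b m j θ x t := by
                  rw [Finset.sum_const, nsmul_eq_mul, Finset.card_erase_of_mem hb, mul_assoc]
              _ ≤ (d : ℝ≥0∞) * phi G a b m j θ x t := by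
                  gcongr
        · -- not at `a`
          have hle : ∀ y ∈ opts G (visited x t) (x t),
              phi G a b m j θ (Function.update x (t + 1) y) (t + 1) ≤ phi G a b m j θ x t := by
            intro y _
            refine (hphile y).trans ?_
            rw [hphi, if_neg hxa, add_zero]
            gcongr
            · exact hθ1.le
            · exact unv_mono G a (Set.subset_insert _ _)
          calc _ ≤ ∑ _y ∈ opts G (visited x t) (x t), phi G a b m j θ x t :=
                Finset.sum_le_sum hle
            _ = _ := by rw [Finset.sum_const, nsmul_eq_mul])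
      x m le_rfl hL
    have hsub : cyl X x m ∩ {ω | (∃ᶠ t in atTop, X t ω = a) ∧ ∀ t, m < t → X t ω ≠ b} ⊆
        cyl X x m ∩ {ω | ∃ s, m ≤ s ∧ (m ≤ s ∧ j ≤ cnt a m (fun r => X r ω) s ∧
          ∀ r, m < r → r ≤ s → X r ω ≠ b) ∧
          ∀ r, m ≤ r → r < s → ¬ (m < r ∧ X r ω = b)} := by
      rintro ω ⟨hω, h1, h2⟩
      refine ⟨hω, ?_⟩
      have hcount : ∀ j : ℕ, ∃ s, m ≤ s ∧ j ≤ cnt a m (fun r => X r ω) s := by
        intro j
        induction j with
        | zero => exact ⟨m, le_rfl, Nat.zero_le _⟩
        | succ j ih =>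
          obtain ⟨s, hs, hj⟩ := ih
          obtain ⟨t, ht, hta⟩ := (frequently_atTop.mp h1) s
          refine ⟨t + 1, by omega, ?_⟩
          have h3 := cnt_succ a m (fun r => X r ω) t (by omega)
          have h4 : cnt a m (fun r => X r ω) s ≤ cnt a m (fun r => X r ω) t := by
            unfold cnt
            apply Finset.card_le_card
            apply Finset.filter_subset_filter
            exact Finset.Ico_subset_Ico_right ht
          have h5 : (if X t ω = a then 1 else 0) = 1 := if_pos hta
          have h6 : cnt a m (fun r => X r ω) (t + 1) = cnt a m (fun r => X r ω) t + 1 := by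
            rw [h3]
            show _ + (if X t ω = a then 1 else 0) = _
            rw [h5]
          omega
      obtain ⟨s, hs, hj⟩ := hcount j
      exact ⟨s, hs, ⟨hs, hj, fun r hr _ => h2 r hr⟩, fun r _ _ hr => h2 r hr.1 hr.2⟩
    calc _ ≤ _ := measure_mono hsub
      _ ≤ P (cyl X x m) * phi G a b m j θ x m := hmax
      _ ≤ 1 * ((θ⁻¹) ^ j * θ ^ d) := by
          gcongr
          · exact prob_le_one
          · unfold phi
            split_ifs
            · exact zero_le
            · gcongr
              · exact hθ1.le
              · have : cnt a m x m = 0 := by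
                  unfold cnt
                  simp
                rw [this, zero_add]
                exact unv_le G a _
      _ = _ := one_mul _
  have hlim : Tendsto (fun j : ℕ => (θ⁻¹) ^ j * θ ^ d) atTop (nhds (0 * θ ^ d)) := by
    apply ENNReal.Tendsto.mul_const
    · exact ENNReal.tendsto_pow_atTop_nhds_zero_of_lt_one (ENNReal.inv_lt_one.mpr hθ1)
    · right
      exact ENNReal.pow_ne_top hθt
  rw [zero_mul] at hlim
  exact le_antisymm (ge_of_tendsto' hlim key) zero_le

/-- a.s. the neighbours of a vertex visited infinitely often are visited infinitely often -/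
theorem ae_adj [Countable V] (h : IsGRW G P X o) (hne : ∀ v, (G.neighborFinset v).Nonempty)
    (a b : V) (hab : G.Adj a b) :
    ∀ᵐ ω ∂P, (∃ᶠ t in atTop, X t ω = a) → ∃ᶠ t in atTop, X t ω = b := by
  have h1 : ∀ m : ℕ, ∀ᵐ ω ∂P, ¬ ((∃ᶠ t in atTop, X t ω = a) ∧ ∀ t, m < t → X t ω ≠ b) := by
    intro m
    rw [ae_iff]
    simp only [not_not]
    exact null_of_cyl h _ m (fun x hL => no_many_visits h hne a b hab m x hL)
  filter_upwards [ae_all_iff.mpr h1] with ω hω ha
  by_contra hb
  rw [not_frequently] at hb
  obtain ⟨m, hm⟩ := eventually_atTop.mp hb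
  exact hω m ⟨ha, fun t ht => hm t ht.le⟩

/-- a.s. if some vertex is visited infinitely often, then all vertices are -/
theorem ae_all [Countable V] (h : IsGRW G P X o) (hne : ∀ v, (G.neighborFinset v).Nonempty)
    (hconn : G.Connected) :
    ∀ᵐ ω ∂P, ∀ a b : V, (∃ᶠ t in atTop, X t ω = a) → ∃ᶠ t in atTop, X t ω = b := by
  have h1 : ∀ᵐ ω ∂P, ∀ a b : V, G.Adj a b → (∃ᶠ t in atTop, X t ω = a) →
      ∃ᶠ t in atTop, X t ω = b := by
    rw [ae_all_iff]
    intro a
    rw [ae_all_iff]
    intro b
    by_cases hab : G.Adj a b
    · filter_upwards [ae_adj h hne a b hab] with ω hω _ using hω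
    · exact Eventually.of_forall (fun ω h' => absurd h' hab)
  filter_upwards [h1] with ω hω a b ha
  obtain ⟨p⟩ := hconn.preconnected a b
  induction p with
  | nil => exact ha
  | cons hadj _ ih => exact ih (hω _ _ hadj ha)

end Process

end Pool.Agent.X142.GRW
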