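import Mathlib
import Pool.Agent.X142.GRW.Nbr

/-!
The ladder: invariants of the greedy random walk and the potential.
-/

open MeasureTheory Finset Filter
open scoped ENNReal

namespace Pool.Agent.X142.GRW

/-- The ladder `ℤ × ℤ_2`. -/
def ladder : SimpleGraph (ℤ × Bool) where
  Adj v w := (v.2 = w.2 ∧ (w.1 = v.1 + 1 ∨ v.1 = w.1 + 1)) ∨ (v.1 = w.1 ∧ v.2 ≠ w.2)
  symm := ⟨by
    rintro v w (⟨h1, h2⟩ | ⟨h1, h2⟩)
    · exact Or.inl ⟨h1.symm, h2.symm⟩
    · exact Or.inr ⟨h1.symm, h2.symm⟩⟩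
  loopless := ⟨by
    rintro v (⟨_, h2⟩ | ⟨_, h2⟩)
    · rcases h2 with h | h <;> omega
    · exact h2 rfl⟩

lemma ladder_adj (v w : ℤ × Bool) : ladder.Adj v w ↔
    w = (v.1 + 1, v.2) ∨ w = (v.1 - 1, v.2) ∨ w = (v.1, !v.2) := by
  obtain ⟨c, i⟩ := v
  obtain ⟨e, j⟩ := w
  show ((i = j ∧ (e = c + 1 ∨ c = e + 1)) ∨ (c = e ∧ i ≠ j)) ↔ _
  simp only [Prod.mk.injEq]
  constructor
  · rintro (⟨rfl, h | h⟩ | ⟨rfl, h⟩)
    · exact Or.inl ⟨h, rfl⟩
    · exact Or.inr (Or.inl ⟨by omega, rfl⟩)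
    · exact Or.inr (Or.inr ⟨rfl, by cases i <;> cases j <;> simp_all⟩)
  · rintro (⟨h, rfl⟩ | ⟨h, rfl⟩ | ⟨rfl, rfl⟩)
    · exact Or.inl ⟨rfl, Or.inl h⟩
    · exact Or.inl ⟨rfl, Or.inr (by omega)⟩
    · exact Or.inr ⟨rfl, by cases i <;> simp⟩

instance : ladder.LocallyFinite := fun v =>
  Fintype.ofFinset {(v.1 + 1, v.2), (v.1 - 1, v.2), (v.1, !v.2)} (by
    intro w
    rw [SimpleGraph.mem_neighborSet, ladder_adj]
    simp)

lemma ladder_nbr (v : ℤ × Bool) : ladder.neighborFinset v =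
    {(v.1 + 1, v.2), (v.1 - 1, v.2), (v.1, !v.2)} := by
  ext w
  rw [SimpleGraph.mem_neighborFinset, ladder_adj]
  simp

lemma ladder_nbr_nonempty (v : ℤ × Bool) : (ladder.neighborFinset v).Nonempty := by
  rw [ladder_nbr]
  exact ⟨_, Finset.mem_insert_self _ _⟩

/-- horizontal edge visited -/
noncomputable def bh (σ : Set (Sym2 (ℤ × Bool))) (n : ℤ) (i : Bool) : Bool := by
  classical
  exact decide (s(((n, i) : ℤ × Bool), (n + 1, i)) ∈ σ)

/-- rung visited -/
noncomputable def br (σ : Set (Sym2 (ℤ × Bool))) (n : ℤ) : Bool := by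
  classical
  exact decide (s(((n, false) : ℤ × Bool), (n, true)) ∈ σ)

lemma bh_iff (σ : Set (Sym2 (ℤ × Bool))) (n : ℤ) (i : Bool) :
    bh σ n i = true ↔ s(((n, i) : ℤ × Bool), (n + 1, i)) ∈ σ := by
  unfold bh
  simp

lemma br_iff (σ : Set (Sym2 (ℤ × Bool))) (n : ℤ) (i : Bool) :
    br σ n = true ↔ s(((n, i) : ℤ × Bool), (n, !i)) ∈ σ := by
  unfold br
  cases i
  · simp
  · rw [Sym2.eq_swap]
    simp

lemma bh_left (σ : Set (Sym2 (ℤ × Bool))) (c : ℤ) (i : Bool) :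
    bh σ (c - 1) i = true ↔ s(((c, i) : ℤ × Bool), (c - 1, i)) ∈ σ := by
  rw [bh_iff, Sym2.eq_swap, sub_add_cancel]

/-- weight of the cut left of the walker, times 4 -/
def f (l l' u r r' : Bool) : ℤ :=
  if l && l' then 0 else if l then (if !u && !r && !r' then -1 else 0)
  else if l' then (if u && r then -4 else -2) else 0

/-- weight of a cut right of the walker, times 4 -/
def g (r r' : Bool) : ℤ := if r && r' then 0 else if !r && !r' then 3 else 4

lemma f_nonpos (l l' u r r' : Bool) : f l l' u r r' ≤ 0 := by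
  revert l l' u r r'
  decide

lemma f_ge (l l' u r r' : Bool) : -4 ≤ f l l' u r r' := by
  revert l l' u r r'
  decide

lemma g_nonneg (r r' : Bool) : 0 ≤ g r r' := by
  revert r r'
  decide

lemma g_symm (r r' : Bool) : g r r' = g r' r := by
  revert r r'
  decide

/-- exactly one -/
def ex1 (a b c : Bool) : Bool := (a && !b && !c) || (!a && b && !c) || (!a && !b && c)

/-- total drift -/
def tot (l l' r r' u u1 s s' top : Bool) : ℤ :=
  let lam := f l l' u r r'
  let dR := if top then -lam else 4 + f true r' u1 s s' - lam - g r r'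
  let dL := -4 + g true l' - lam
  let dU := f l' l true r' r - lam
  if l && r && u then dR + dL + dU
  else (if r then 0 else dR) + (if l then 0 else dL) + (if u then 0 else dU)

/-- the constraints -/
def cond (l l' r r' u u1 s s' top : Bool) : Bool :=
  (l || l') && (l || r || u) && !(ex1 l' r' u) && !(ex1 r u1 s) && !(ex1 r' u1 s') &&
    !(!r && !r' && (u1 || s || s')) && !(top && (r || r'))

lemma table (l l' r r' u u1 s s' top : Bool) (h : cond l l' r r' u u1 s s' top = true) :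
    tot l l' r r' u u1 s s' top ≤ 0 := by
  cases top <;> cases l <;> cases l' <;> cases u <;> revert r r' u1 s s' <;> decide

/-- weight of the cut `n` for a walker on its left, times 4 -/
noncomputable def gc (σ : Set (Sym2 (ℤ × Bool))) (n : ℤ) : ℤ := g (bh σ n false) (bh σ n true)

lemma gc_eq (σ : Set (Sym2 (ℤ × Bool))) (n : ℤ) (i : Bool) :
    gc σ n = g (bh σ n i) (bh σ n (!i)) := by
  unfold gc
  cases i
  · rfl
  · rw [g_symm]
    rfl

/-- weight of the cut left of the walker -/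
noncomputable def fc (σ : Set (Sym2 (ℤ × Bool))) (v : ℤ × Bool) : ℤ :=
  f (bh σ (v.1 - 1) v.2) (bh σ (v.1 - 1) (!v.2)) (br σ v.1) (bh σ v.1 v.2) (bh σ v.1 (!v.2))

/-- the potential times 4 -/
noncomputable def W4 (K : ℤ) (σ : Set (Sym2 (ℤ × Bool))) (v : ℤ × Bool) : ℤ :=
  4 * v.1 + 4 + fc σ v + ∑ n ∈ Finset.Ico v.1 (2 * K - 1), gc σ n

/-- the stopped potential times 4 -/
noncomputable def phi4 (K : ℤ) (σ : Set (Sym2 (ℤ × Bool))) (v : ℤ × Bool) : ℤ :=
  if v.1 ≤ 0 then 0 else if 2 * K ≤ v.1 then 8 * K else W4 K σ v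

/-- the cut `n` is fresh -/
def Fresh (σ : Set (Sym2 (ℤ × Bool))) (n : ℤ) : Prop := bh σ n false = false ∧ bh σ n true = false

lemma fresh_iff (σ : Set (Sym2 (ℤ × Bool))) (n : ℤ) (i : Bool) :
    Fresh σ n ↔ bh σ n i = false ∧ bh σ n (!i) = false := by
  unfold Fresh
  cases i
  · rfl
  · simp only [Bool.not_true]
    tauto

/-- The invariant. -/
structure Inv (σ : Set (Sym2 (ℤ × Bool))) (v : ℤ × Bool) : Prop where
  deg : ∀ w, w ≠ (0, false) → w ≠ v → ∀ a, ladder.Adj w a → s(w, a) ∈ σ →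
    ∃ b, ladder.Adj w b ∧ b ≠ a ∧ s(w, b) ∈ σ
  pos : v ≠ (0, false) → ∃ a, ladder.Adj v a ∧ s(v, a) ∈ σ
  cut : ∀ n, 0 ≤ n → Fresh σ n → v.1 ≤ n ∧ ∀ a b, s(a, b) ∈ σ → a.1 ≤ n ∧ b.1 ≤ n

lemma inv_init : Inv ∅ (0, false) where
  deg := by
    intro w _ _ a _ h
    exact absurd h (Set.notMem_empty _)
  pos h := absurd rfl h
  cut := by
    intro n hn _
    exact ⟨hn, fun a b h => absurd h (Set.notMem_empty _)⟩

lemma bh_mono {σ τ : Set (Sym2 (ℤ × Bool))} (h : σ ⊆ τ) (n : ℤ) (i : Bool)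
    (h1 : bh τ n i = false) : bh σ n i = false := by
  rw [← Bool.not_eq_true] at h1 ⊢
  rw [bh_iff] at h1 ⊢
  exact fun h2 => h1 (h h2)

lemma inv_step {σ : Set (Sym2 (ℤ × Bool))} {v : ℤ × Bool} (hI : Inv σ v) {y : ℤ × Bool}
    (hy : y ∈ opts ladder σ v) : Inv (insert s(v, y) σ) y := by
  have hadj : ladder.Adj v y := by
    have := opts_subset _ _ _ hy
    rwa [SimpleGraph.mem_neighborFinset] at this
  refine ⟨?_, ?_, ?_⟩
  · intro w hw0 hwy a hwa hmem
    by_cases hwv : w = v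
    · subst hwv
      by_cases hfresh : ∃ z ∈ ladder.neighborFinset w, s(w, z) ∉ σ
      · rw [mem_opts_of_fresh _ _ _ hfresh] at hy
        obtain ⟨a0, ha0, ha0σ⟩ := hI.pos hw0
        by_cases hay : a = y
        · refine ⟨a0, ha0, ?_, Set.mem_insert_of_mem _ ha0σ⟩
          rintro rfl
          subst hay
          exact hy.2 ha0σ
        · exact ⟨y, hadj, Ne.symm hay, Set.mem_insert _ _⟩
      · push Not at hfresh
        -- all edges visited: choose another neighbour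
        have h2 : ∃ b, ladder.Adj w b ∧ b ≠ a := by
          by_cases h3 : a = (w.1 + 1, w.2)
          · refine ⟨(w.1 - 1, w.2), (ladder_adj _ _).mpr (Or.inr (Or.inl rfl)), ?_⟩
            rw [h3]
            intro h4
            have := (Prod.mk.inj h4).1
            omega
          · exact ⟨(w.1 + 1, w.2), (ladder_adj _ _).mpr (Or.inl rfl), Ne.symm h3⟩
        obtain ⟨b, hb, hba⟩ := h2
        refine ⟨b, hb, hba, Set.mem_insert_of_mem _ (hfresh b ?_)⟩
        rw [SimpleGraph.mem_neighborFinset]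
        exact hb
    · have hold : s(w, a) ∈ σ := by
        rcases hmem with h | h
        · rw [Sym2.eq_iff] at h
          rcases h with ⟨h1, _⟩ | ⟨h1, _⟩
          · exact absurd h1 hwv
          · exact absurd h1 hwy
        · exact h
      obtain ⟨b, hb1, hb2, hb3⟩ := hI.deg w hw0 hwv a hwa hold
      exact ⟨b, hb1, hb2, Set.mem_insert_of_mem _ hb3⟩
  · intro _
    exact ⟨v, hadj.symm, by rw [Sym2.eq_swap]; exact Set.mem_insert _ _⟩
  · intro n hn hF
    have hF0 : Fresh σ n := ⟨bh_mono (Set.subset_insert _ _) _ _ hF.1,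
      bh_mono (Set.subset_insert _ _) _ _ hF.2⟩
    obtain ⟨h1, h2⟩ := hI.cut n hn hF0
    have hy1 : y.1 ≤ n := by
      by_contra h3
      have h4 : v.1 = n ∧ y = (n + 1, v.2) := by
        rcases (ladder_adj _ _).mp hadj with h5 | h5 | h5
        · rw [h5] at h3
          have h6 : ¬ v.1 + 1 ≤ n := h3
          have h7 : v.1 = n := by omega
          refine ⟨h7, ?_⟩
          rw [h5, h7]
        · rw [h5] at h3
          have h6 : ¬ v.1 - 1 ≤ n := h3
          omega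
        · rw [h5] at h3
          exact absurd h1 h3
      have h5 : bh (insert s(v, y) σ) n v.2 = true := by
        rw [bh_iff, h4.2]
        have : v = (n, v.2) := by rw [← h4.1]
        rw [← this]
        exact Set.mem_insert _ _
      have h6 := ((fresh_iff _ n v.2).mp hF).1
      rw [h5] at h6
      exact Bool.noConfusion h6
    refine ⟨hy1, fun a b hab => ?_⟩
    rcases hab with h | h
    · rw [Sym2.eq_iff] at h
      rcases h with ⟨rfl, rfl⟩ | ⟨rfl, rfl⟩
      · exact ⟨h1, hy1⟩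
      · exact ⟨hy1, h1⟩
    · exact h2 a b h

lemma deg_ne_one {σ : Set (Sym2 (ℤ × Bool))} {v : ℤ × Bool} (hI : Inv σ v) (n : ℤ) (hn : 1 ≤ n)
    (j : Bool) (hne : ((n, j) : ℤ × Bool) ≠ v) :
    ex1 (bh σ (n - 1) j) (bh σ n j) (br σ n) = false := by
  have h0 : ((n, j) : ℤ × Bool) ≠ (0, false) := by
    intro h
    have := (Prod.mk.inj h).1
    omega
  have hL := hI.deg (n, j) h0 hne (n - 1, j) ((ladder_adj _ _).mpr (Or.inr (Or.inl rfl)))
  have hR := hI.deg (n, j) h0 hne (n + 1, j) ((ladder_adj _ _).mpr (Or.inl rfl))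
  have hU := hI.deg (n, j) h0 hne (n, !j) ((ladder_adj _ _).mpr (Or.inr (Or.inr rfl)))
  have e1 : ∀ b, ladder.Adj (n, j) b → s(((n, j) : ℤ × Bool), b) ∈ σ →
      (b = (n + 1, j) ∧ bh σ n j = true) ∨ (b = (n - 1, j) ∧ bh σ (n - 1) j = true) ∨
      (b = (n, !j) ∧ br σ n = true) := by
    intro b hb hbσ
    rcases (ladder_adj _ _).mp hb with h | h | h
    · refine Or.inl ⟨h, ?_⟩
      rw [bh_iff]
      rw [h] at hbσ
      exact hbσ
    · refine Or.inr (Or.inl ⟨h, ?_⟩)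
      rw [bh_left]
      rw [h] at hbσ
      exact hbσ
    · refine Or.inr (Or.inr ⟨h, ?_⟩)
      rw [br_iff σ n j]
      rw [h] at hbσ
      exact hbσ
  by_contra hcon
  rw [Bool.not_eq_false] at hcon
  unfold ex1 at hcon
  simp only [Bool.or_eq_true, Bool.and_eq_true, Bool.not_eq_true'] at hcon
  rcases hcon with (⟨⟨h1, h2⟩, h3⟩ | ⟨⟨h1, h2⟩, h3⟩) | ⟨⟨h1, h2⟩, h3⟩
  · obtain ⟨b, hb1, hb2, hb3⟩ := hL ((bh_left σ n j).mp h1)
    rcases e1 b hb1 hb3 with ⟨_, h⟩ | ⟨h, _⟩ | ⟨_, h⟩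
    · rw [h2] at h; exact Bool.noConfusion h
    · exact hb2 h
    · rw [h3] at h; exact Bool.noConfusion h
  · obtain ⟨b, hb1, hb2, hb3⟩ := hR ((bh_iff σ n j).mp h2)
    rcases e1 b hb1 hb3 with ⟨h, _⟩ | ⟨_, h⟩ | ⟨_, h⟩
    · exact hb2 h
    · rw [h1] at h; exact Bool.noConfusion h
    · rw [h3] at h; exact Bool.noConfusion h
  · obtain ⟨b, hb1, hb2, hb3⟩ := hU ((br_iff σ n j).mp h3)
    rcases e1 b hb1 hb3 with ⟨_, h⟩ | ⟨_, h⟩ | ⟨h, _⟩
    · rw [h2] at h; exact Bool.noConfusion h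
    · rw [h1] at h; exact Bool.noConfusion h
    · exact hb2 h

end Pool.Agent.X142.GRW
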