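import Mathlib
import Pool.Agent.X142.GRW.Ladder

/-!
The potential decreases in the mean.
-/

open MeasureTheory Finset Filter
open scoped ENNReal

namespace Pool.Agent.X142.GRW

lemma bh_insert_h (σ : Set (Sym2 (ℤ × Bool))) (c : ℤ) (i : Bool) (n : ℤ) (j : Bool) :
    bh (insert s(((c, i) : ℤ × Bool), (c + 1, i)) σ) n j = (decide (n = c ∧ j = i) || bh σ n j) := by
  rw [Bool.eq_iff_iff, Bool.or_eq_true, bh_iff, bh_iff, Set.mem_insert_iff, decide_eq_true_iff]
  have : (s(((n, j) : ℤ × Bool), (n + 1, j)) = s(((c, i) : ℤ × Bool), (c + 1, i))) ↔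
      (n = c ∧ j = i) := by
    rw [Sym2.eq_iff]
    simp only [Prod.mk.injEq]
    constructor
    · rintro (⟨h1, _⟩ | ⟨h1, h2⟩)
      · exact h1
      · omega
    · rintro ⟨rfl, rfl⟩
      exact Or.inl ⟨⟨rfl, rfl⟩, rfl, rfl⟩
  rw [this]

lemma br_insert_h (σ : Set (Sym2 (ℤ × Bool))) (c : ℤ) (i : Bool) (n : ℤ) :
    br (insert s(((c, i) : ℤ × Bool), (c + 1, i)) σ) n = br σ n := by
  rw [Bool.eq_iff_iff, br_iff _ n false, br_iff _ n false, Set.mem_insert_iff]
  have : ¬ (s(((n, false) : ℤ × Bool), (n, !false)) = s(((c, i) : ℤ × Bool), (c + 1, i))) := by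
    rw [Sym2.eq_iff]
    simp only [Prod.mk.injEq]
    rintro (⟨h1, h2⟩ | ⟨h1, h2⟩) <;> omega
  simp only [this, false_or]

lemma bh_insert_u (σ : Set (Sym2 (ℤ × Bool))) (c : ℤ) (i : Bool) (n : ℤ) (j : Bool) :
    bh (insert s(((c, i) : ℤ × Bool), (c, !i)) σ) n j = bh σ n j := by
  rw [Bool.eq_iff_iff, bh_iff, bh_iff, Set.mem_insert_iff]
  have : ¬ (s(((n, j) : ℤ × Bool), (n + 1, j)) = s(((c, i) : ℤ × Bool), (c, !i))) := by
    rw [Sym2.eq_iff]
    simp only [Prod.mk.injEq]
    rintro (⟨h1, h2⟩ | ⟨h1, h2⟩) <;> omega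
  simp only [this, false_or]

lemma br_insert_u (σ : Set (Sym2 (ℤ × Bool))) (c : ℤ) (i : Bool) (n : ℤ) :
    br (insert s(((c, i) : ℤ × Bool), (c, !i)) σ) n = (decide (n = c) || br σ n) := by
  rw [Bool.eq_iff_iff, Bool.or_eq_true, br_iff _ n i, br_iff _ n i, Set.mem_insert_iff,
    decide_eq_true_iff]
  have : (s(((n, i) : ℤ × Bool), (n, !i)) = s(((c, i) : ℤ × Bool), (c, !i))) ↔ (n = c) := by
    rw [Sym2.eq_iff]
    simp only [Prod.mk.injEq]
    constructor
    · rintro (⟨h1, _⟩ | ⟨h1, _⟩)
      · exact h1.1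
      · exact h1.1
    · rintro rfl
      simp
  rw [this]

lemma insert_left (σ : Set (Sym2 (ℤ × Bool))) (c : ℤ) (i : Bool) :
    insert s(((c, i) : ℤ × Bool), (c - 1, i)) σ
      = insert s(((c - 1, i) : ℤ × Bool), ((c - 1) + 1, i)) σ := by
  rw [Sym2.eq_swap, sub_add_cancel]

lemma sum_opts (σ : Set (Sym2 (ℤ × Bool))) (c : ℤ) (i : Bool) (F : ℤ × Bool → ℤ) :
    ∑ y ∈ opts ladder σ (c, i), F y =
      if bh σ (c - 1) i && bh σ c i && br σ c
      then F (c + 1, i) + F (c - 1, i) + F (c, !i)
      else (if bh σ c i then 0 else F (c + 1, i)) + (if bh σ (c - 1) i then 0 else F (c - 1, i))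
        + (if br σ c then 0 else F (c, !i)) := by
  classical
  have hn : ladder.neighborFinset (c, i) = {(c + 1, i), (c - 1, i), (c, !i)} := ladder_nbr (c, i)
  have hne1 : ((c + 1, i) : ℤ × Bool) ∉ ({(c - 1, i), (c, !i)} : Finset (ℤ × Bool)) := by
    simp only [Finset.mem_insert, Finset.mem_singleton, Prod.mk.injEq, not_or, not_and]
    refine ⟨fun h => ?_, fun h => ?_⟩ <;> omega
  have hne2 : ((c - 1, i) : ℤ × Bool) ∉ ({(c, !i)} : Finset (ℤ × Bool)) := by
    simp only [Finset.mem_singleton, Prod.mk.injEq, not_and]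
    intro h
    omega
  by_cases hf : ∃ w ∈ ladder.neighborFinset (c, i), s((c, i), w) ∉ σ
  · have hO : opts ladder σ (c, i) = ({(c + 1, i), (c - 1, i), (c, !i)} : Finset (ℤ × Bool)).filter
        (fun y => s((c, i), y) ∉ σ) := by
      ext y
      rw [mem_opts_of_fresh _ _ _ hf, Finset.mem_filter, hn]
    have hnot : ¬ ((bh σ (c - 1) i && bh σ c i && br σ c) = true) := by
      rw [Bool.and_eq_true, Bool.and_eq_true, bh_left, bh_iff, br_iff σ c i]
      rintro ⟨⟨h1, h2⟩, h3⟩
      obtain ⟨w, hw, hw2⟩ := hf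
      rw [hn] at hw
      simp only [Finset.mem_insert, Finset.mem_singleton] at hw
      rcases hw with rfl | rfl | rfl
      · exact hw2 h2
      · exact hw2 h1
      · exact hw2 h3
    rw [if_neg hnot, hO, Finset.sum_filter, Finset.sum_insert hne1, Finset.sum_insert hne2,
      Finset.sum_singleton, ← add_assoc]
    congr 1
    · congr 1
      · by_cases h : bh σ c i = true
        · rw [if_pos h, if_neg]
          rw [not_not]
          exact (bh_iff σ c i).mp h
        · rw [if_neg h, if_pos]
          intro h2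
          exact h ((bh_iff σ c i).mpr h2)
      · by_cases h : bh σ (c - 1) i = true
        · rw [if_pos h, if_neg]
          rw [not_not]
          exact (bh_left σ c i).mp h
        · rw [if_neg h, if_pos]
          intro h2
          exact h ((bh_left σ c i).mpr h2)
    · by_cases h : br σ c = true
      · rw [if_pos h, if_neg]
        rw [not_not]
        exact (br_iff σ c i).mp h
      · rw [if_neg h, if_pos]
        intro h2
        exact h ((br_iff σ c i).mpr h2)
  · have hO : opts ladder σ (c, i) = {(c + 1, i), (c - 1, i), (c, !i)} := by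
      rw [opts_of_not_fresh _ _ _ hf, hn]
    push Not at hf
    have h1 : bh σ (c - 1) i = true := (bh_left σ c i).mpr (hf _ (by rw [hn]; simp))
    have h2 : bh σ c i = true := (bh_iff σ c i).mpr (hf _ (by rw [hn]; simp))
    have h3 : br σ c = true := (br_iff σ c i).mpr (hf _ (by rw [hn]; simp))
    rw [hO, h1, h2, h3, Finset.sum_insert hne1, Finset.sum_insert hne2, Finset.sum_singleton]
    simp only [Bool.and_self, if_true]
    ring

lemma sum_gc_nonneg (σ : Set (Sym2 (ℤ × Bool))) (a b : ℤ) :
    0 ≤ ∑ n ∈ Finset.Ico a b, gc σ n := Finset.sum_nonneg (fun n _ => g_nonneg _ _)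

lemma Ico_left (a b : ℤ) (h : a < b) : Finset.Ico a b = insert a (Finset.Ico (a + 1) b) := by
  ext n
  simp only [Finset.mem_Ico, Finset.mem_insert]
  omega

lemma sum_Ico_left (F : ℤ → ℤ) (a b : ℤ) (h : a < b) :
    ∑ n ∈ Finset.Ico a b, F n = F a + ∑ n ∈ Finset.Ico (a + 1) b, F n := by
  rw [Ico_left a b h, Finset.sum_insert]
  simp

theorem step_le (K : ℤ) (σ : Set (Sym2 (ℤ × Bool))) (c : ℤ) (i : Bool) (hI : Inv σ (c, i))
    (h0 : 0 < c) (hK : c < 2 * K) (hF : Fresh σ (2 * K - 1)) :
    ∑ y ∈ opts ladder σ (c, i), phi4 K (insert s((c, i), y) σ) y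
      ≤ ((opts ladder σ (c, i)).card : ℤ) * phi4 K σ (c, i) := by
  obtain ⟨l, hl⟩ : ∃ l, l = bh σ (c - 1) i := ⟨_, rfl⟩
  obtain ⟨l', hl'⟩ : ∃ l, l = bh σ (c - 1) (!i) := ⟨_, rfl⟩
  obtain ⟨r, hr⟩ : ∃ l, l = bh σ c i := ⟨_, rfl⟩
  obtain ⟨r', hr'⟩ : ∃ l, l = bh σ c (!i) := ⟨_, rfl⟩
  obtain ⟨u, hu⟩ : ∃ l, l = br σ c := ⟨_, rfl⟩
  obtain ⟨u1, hu1⟩ : ∃ l, l = br σ (c + 1) := ⟨_, rfl⟩
  obtain ⟨s, hs⟩ : ∃ l, l = bh σ (c + 1) i := ⟨_, rfl⟩
  obtain ⟨s', hs'⟩ : ∃ l, l = bh σ (c + 1) (!i) := ⟨_, rfl⟩
  obtain ⟨top, htop⟩ : ∃ b : Bool, b = decide (c = 2 * K - 1) := ⟨_, rfl⟩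
  have hphi : phi4 K σ (c, i) = W4 K σ (c, i) := by
    unfold phi4
    rw [if_neg (by show ¬ c ≤ 0; omega), if_neg (by show ¬ 2 * K ≤ c; omega)]
  have hfc : fc σ (c, i) = f l l' u r r' := by
    rw [hl, hl', hu, hr, hr']
    rfl
  have hW : W4 K σ (c, i) = 4 * c + 4 + f l l' u r r' + ∑ n ∈ Finset.Ico c (2 * K - 1), gc σ n := by
    rw [← hfc]
    rfl
  -- constraints
  have hcond : cond l l' r r' u u1 s s' top = true := by
    have c1 : (l || l') = true := by
      by_contra h
      rw [Bool.not_eq_true, Bool.or_eq_false_iff] at h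
      have h2 := (hI.cut (c - 1) (by omega) ((fresh_iff σ (c - 1) i).mpr ⟨by rw [← hl]; exact h.1,
        by rw [← hl']; exact h.2⟩)).1
      have h3 : c ≤ c - 1 := h2
      omega
    have c2 : (l || r || u) = true := by
      obtain ⟨a, ha, haσ⟩ := hI.pos (by
        intro h
        have := (Prod.mk.inj h).1
        omega)
      rw [Bool.or_eq_true, Bool.or_eq_true, hl, hr, hu]
      rcases (ladder_adj _ _).mp ha with h | h | h
      · left; right
        rw [bh_iff]
        rw [h] at haσ
        exact haσ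
      · left; left
        rw [bh_left]
        rw [h] at haσ
        exact haσ
      · right
        rw [br_iff σ c i]
        rw [h] at haσ
        exact haσ
    have c3 : ex1 l' r' u = false := by
      have := deg_ne_one hI c (by omega) (!i) (by
        intro h
        have := (Prod.mk.inj h).2
        cases i <;> simp at this)
      rw [← hl', ← hr', ← hu] at this
      exact this
    have c4 : ex1 r u1 s = false := by
      have := deg_ne_one hI (c + 1) (by omega) i (by
        intro h
        have := (Prod.mk.inj h).1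
        omega)
      rw [add_sub_cancel_right, ← hr, ← hs, ← hu1] at this
      revert this
      cases r <;> cases u1 <;> cases s <;> decide
    have c5 : ex1 r' u1 s' = false := by
      have := deg_ne_one hI (c + 1) (by omega) (!i) (by
        intro h
        have := (Prod.mk.inj h).1
        omega)
      rw [add_sub_cancel_right, ← hr', ← hs', ← hu1] at this
      revert this
      cases r' <;> cases u1 <;> cases s' <;> decide
    have c6 : (!r && !r' && (u1 || s || s')) = false := by
      by_contra h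
      rw [Bool.not_eq_false, Bool.and_eq_true, Bool.and_eq_true, Bool.not_eq_true',
        Bool.not_eq_true', Bool.or_eq_true, Bool.or_eq_true] at h
      obtain ⟨⟨h1, h2⟩, h3⟩ := h
      have h4 := (hI.cut c h0.le ((fresh_iff σ c i).mpr ⟨by rw [← hr]; exact h1,
        by rw [← hr']; exact h2⟩)).2
      rcases h3 with (h3 | h3) | h3
      · rw [hu1, br_iff σ (c + 1) i] at h3
        have := (h4 _ _ h3).1
        simp at this
      · rw [hs, bh_iff] at h3
        have := (h4 _ _ h3).1
        simp at this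
      · rw [hs', bh_iff] at h3
        have := (h4 _ _ h3).1
        simp at this
    have c7 : (top && (r || r')) = false := by
      by_contra h
      rw [Bool.not_eq_false, Bool.and_eq_true, htop, decide_eq_true_iff] at h
      obtain ⟨h1, h2⟩ := h
      rw [← h1, fresh_iff σ c i, ← hr, ← hr'] at hF
      rw [hF.1, hF.2] at h2
      simp at h2
    unfold cond
    rw [c1, c2, c3, c4, c5, c6, c7]
    rfl
  have htab := table l l' r r' u u1 s s' top hcond
  -- right
  have hdR : phi4 K (insert s(((c, i) : ℤ × Bool), (c + 1, i)) σ) (c + 1, i) - W4 K σ (c, i)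
      ≤ (if top then -(f l l' u r r') else 4 + f true r' u1 s s' - f l l' u r r' - g r r') := by
    by_cases ht : c = 2 * K - 1
    · have : top = true := by rw [htop, decide_eq_true_iff]; exact ht
      rw [this, if_pos rfl]
      unfold phi4
      rw [if_neg (by show ¬ c + 1 ≤ 0; omega), if_pos (by show 2 * K ≤ c + 1; omega), hW]
      rw [ht]
      simp only [Finset.Ico_self, Finset.sum_empty]
      linarith
    · have : top = false := by rw [htop, decide_eq_false_iff_not]; exact ht
      rw [this]
      simp only [Bool.false_eq_true, if_false]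
      unfold phi4
      rw [if_neg (by show ¬ c + 1 ≤ 0; omega), if_neg (by show ¬ 2 * K ≤ c + 1; omega), hW,
        sum_Ico_left _ c (2 * K - 1) (by omega), gc_eq σ c i, ← hr, ← hr']
      unfold W4
      have e1 : ∑ n ∈ Finset.Ico ((c + 1, i) : ℤ × Bool).1 (2 * K - 1),
          gc (insert s(((c, i) : ℤ × Bool), (c + 1, i)) σ) n
          = ∑ n ∈ Finset.Ico (c + 1) (2 * K - 1), gc σ n := by
        apply Finset.sum_congr rfl
        intro n hn
        have hn1 : c + 1 ≤ n := (Finset.mem_Ico.mp hn).1
        unfold gc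
        rw [bh_insert_h, bh_insert_h]
        have h1 : decide (n = c ∧ false = i) = false := by
          rw [decide_eq_false_iff_not]
          rintro ⟨h, _⟩
          omega
        have h2 : decide (n = c ∧ true = i) = false := by
          rw [decide_eq_false_iff_not]
          rintro ⟨h, _⟩
          omega
        rw [h1, h2]
        simp
      have e2 : fc (insert s(((c, i) : ℤ × Bool), (c + 1, i)) σ) (c + 1, i)
          = f true r' u1 s s' := by
        unfold fc
        simp only [add_sub_cancel_right]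
        rw [bh_insert_h, bh_insert_h, bh_insert_h, bh_insert_h, br_insert_h, ← hr', ← hu1, ← hs,
          ← hs']
        have h1 : decide (c = c ∧ i = i) = true := by simp
        have h2 : decide (c = c ∧ (!i) = i) = false := by
          rw [decide_eq_false_iff_not]
          cases i <;> simp
        have h3 : decide (c + 1 = c ∧ i = i) = false := by
          rw [decide_eq_false_iff_not]
          rintro ⟨h, _⟩
          omega
        have h4 : decide (c + 1 = c ∧ (!i) = i) = false := by
          rw [decide_eq_false_iff_not]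
          rintro ⟨h, _⟩
          omega
        rw [h1, h2, h3, h4]
        simp
      rw [e1, e2]
      show 4 * (c + 1) + 4 + _ + _ - _ ≤ _
      linarith
  -- left
  have hdL : phi4 K (insert s(((c, i) : ℤ × Bool), (c - 1, i)) σ) (c - 1, i) - W4 K σ (c, i)
      ≤ -4 + g true l' - f l l' u r r' := by
    have hg := g_nonneg true l'
    have hS := sum_gc_nonneg σ c (2 * K - 1)
    by_cases h1 : c - 1 ≤ 0
    · unfold phi4
      rw [if_pos (show ((c - 1, i) : ℤ × Bool).1 ≤ 0 from h1), hW]
      linarith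
    · unfold phi4
      rw [if_neg h1, if_neg (by show ¬ 2 * K ≤ c - 1; omega), hW]
      unfold W4
      have e1 : ∑ n ∈ Finset.Ico ((c - 1, i) : ℤ × Bool).1 (2 * K - 1),
          gc (insert s(((c, i) : ℤ × Bool), (c - 1, i)) σ) n
          = g true l' + ∑ n ∈ Finset.Ico c (2 * K - 1), gc σ n := by
        show ∑ n ∈ Finset.Ico (c - 1) (2 * K - 1), _ = _
        rw [sum_Ico_left _ (c - 1) (2 * K - 1) (by omega), insert_left, sub_add_cancel]
        congr 1
        · rw [gc_eq _ (c - 1) i]
          have e3 : insert s(((c - 1, i) : ℤ × Bool), (c, i)) σ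
              = insert s(((c - 1, i) : ℤ × Bool), (c - 1 + 1, i)) σ := by rw [sub_add_cancel]
          rw [e3, bh_insert_h, bh_insert_h, ← hl']
          have h2 : decide (c - 1 = c - 1 ∧ i = i) = true := by simp
          have h3 : decide (c - 1 = c - 1 ∧ (!i) = i) = false := by
            rw [decide_eq_false_iff_not]
            cases i <;> simp
          rw [h2, h3]
          simp
        · apply Finset.sum_congr rfl
          intro n hn
          have hn1 : c ≤ n := (Finset.mem_Ico.mp hn).1
          unfold gc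
          have e3 : insert s(((c - 1, i) : ℤ × Bool), (c, i)) σ
              = insert s(((c - 1, i) : ℤ × Bool), (c - 1 + 1, i)) σ := by rw [sub_add_cancel]
          rw [e3, bh_insert_h, bh_insert_h]
          have h2 : decide (n = c - 1 ∧ false = i) = false := by
            rw [decide_eq_false_iff_not]
            rintro ⟨h, _⟩
            omega
          have h3 : decide (n = c - 1 ∧ true = i) = false := by
            rw [decide_eq_false_iff_not]
            rintro ⟨h, _⟩
            omega
          rw [h2, h3]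
          simp
      rw [e1]
      have hfn : fc (insert s(((c, i) : ℤ × Bool), (c - 1, i)) σ) (c - 1, i) ≤ 0 :=
        f_nonpos _ _ _ _ _
      show 4 * (c - 1) + 4 + _ + _ - _ ≤ _
      linarith
  -- rung
  have hdU : phi4 K (insert s(((c, i) : ℤ × Bool), (c, !i)) σ) (c, !i) - W4 K σ (c, i)
      ≤ f l' l true r' r - f l l' u r r' := by
    unfold phi4
    rw [if_neg (by show ¬ c ≤ 0; omega), if_neg (by show ¬ 2 * K ≤ c; omega), hW]
    unfold W4
    have e1 : ∑ n ∈ Finset.Ico ((c, !i) : ℤ × Bool).1 (2 * K - 1),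
        gc (insert s(((c, i) : ℤ × Bool), (c, !i)) σ) n
        = ∑ n ∈ Finset.Ico c (2 * K - 1), gc σ n := by
      apply Finset.sum_congr rfl
      intro n _
      unfold gc
      rw [bh_insert_u, bh_insert_u]
    have e2 : fc (insert s(((c, i) : ℤ × Bool), (c, !i)) σ) (c, !i) = f l' l true r' r := by
      unfold fc
      simp only [Bool.not_not]
      rw [bh_insert_u, bh_insert_u, bh_insert_u, bh_insert_u, br_insert_u, ← hl, ← hl', ← hr, ← hr']
      simp
    rw [e1, e2]
    show 4 * c + 4 + _ + _ - _ ≤ _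
    linarith
  -- summation
  have hsum : ∑ y ∈ opts ladder σ (c, i), (phi4 K (insert s((c, i), y) σ) y - W4 K σ (c, i)) ≤ 0 := by
    rw [sum_opts, ← hl, ← hr, ← hu]
    refine le_trans ?_ htab
    unfold tot
    split_ifs <;> simp_all <;> linarith
  rw [Finset.sum_sub_distrib, Finset.sum_const, nsmul_eq_mul] at hsum
  rw [hphi]
  linarith

end Pool.Agent.X142.GRW
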