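import Mathlib
import Pool.Agent.X142.GRW.Step

/-!
Escape to the right without visiting column 0 has probability zero.
-/

open MeasureTheory Finset Filter
open scoped ENNReal

namespace Pool.Agent.X142.GRW

/-- the scales -/
def KK (k0 : ℤ) (m : ℕ) : ℤ := 2 ^ m * k0

lemma KK_succ (k0 : ℤ) (m : ℕ) : KK k0 (m + 1) = 2 * KK k0 m := by
  unfold KK
  ring

lemma KK_ge (k0 : ℤ) (hk : 2 ≤ k0) (m : ℕ) : k0 ≤ KK k0 m := by
  unfold KK
  have : (1 : ℤ) ≤ 2 ^ m := one_le_pow₀ (by norm_num)
  nlinarith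

lemma phi4_nonneg (K : ℤ) (hK : 0 ≤ K) (σ : Set (Sym2 (ℤ × Bool))) (v : ℤ × Bool) :
    0 ≤ phi4 K σ v := by
  unfold phi4
  split_ifs with h1 h2
  · exact le_rfl
  · linarith
  · unfold W4
    have h3 : -4 ≤ fc σ v := f_ge _ _ _ _ _
    have h4 := sum_gc_nonneg σ v.1 (2 * K - 1)
    push Not at h1
    have : 1 ≤ v.1 := h1
    linarith

/-- the iterated potential -/
noncomputable def Psi (k0 : ℤ) : ℕ → Set (Sym2 (ℤ × Bool)) → ℤ × Bool → ℝ
  | 0, _, _ => 1
  | m + 1, σ, v => by
      classical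
      exact if Fresh σ (KK k0 m - 1) then (15 / 16) * Psi k0 m σ v
        else (phi4 (KK k0 m) σ v : ℝ) / (8 * KK k0 m)

lemma Psi_fresh (k0 : ℤ) (m : ℕ) (σ : Set (Sym2 (ℤ × Bool))) (v : ℤ × Bool)
    (h : Fresh σ (KK k0 m - 1)) : Psi k0 (m + 1) σ v = (15 / 16) * Psi k0 m σ v := by
  classical
  unfold Psi
  rw [if_pos h]
  cases m <;> rfl

lemma Psi_not_fresh (k0 : ℤ) (m : ℕ) (σ : Set (Sym2 (ℤ × Bool))) (v : ℤ × Bool)
    (h : ¬ Fresh σ (KK k0 m - 1)) :
    Psi k0 (m + 1) σ v = (phi4 (KK k0 m) σ v : ℝ) / (8 * KK k0 m) := by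
  classical
  unfold Psi
  rw [if_neg h]

lemma Psi_nonneg (k0 : ℤ) (hk : 2 ≤ k0) (m : ℕ) (σ : Set (Sym2 (ℤ × Bool))) (v : ℤ × Bool) :
    0 ≤ Psi k0 m σ v := by
  induction m with
  | zero => exact zero_le_one
  | succ m ih =>
    have hK := KK_ge k0 hk m
    by_cases h : Fresh σ (KK k0 m - 1)
    · rw [Psi_fresh k0 m σ v h]
      positivity
    · rw [Psi_not_fresh k0 m σ v h]
      have h1 : (0 : ℝ) ≤ phi4 (KK k0 m) σ v := by
        exact_mod_cast phi4_nonneg (KK k0 m) (by omega) σ v
      have h2 : (0 : ℝ) ≤ KK k0 m := by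
        have : 0 ≤ KK k0 m := by omega
        exact_mod_cast this
      positivity

lemma Psi_top (k0 : ℤ) (hk : 2 ≤ k0) (m : ℕ) (σ : Set (Sym2 (ℤ × Bool))) (v : ℤ × Bool)
    (hI : Inv σ v) (hv : v.1 = KK k0 m) : 1 ≤ Psi k0 m σ v := by
  cases m with
  | zero => exact le_rfl
  | succ m =>
    have hK := KK_ge k0 hk m
    have h : ¬ Fresh σ (KK k0 m - 1) := by
      intro hF
      have := (hI.cut _ (by omega) hF).1
      rw [hv, KK_succ] at this
      omega
    rw [Psi_not_fresh k0 m σ v h]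
    have h2 : phi4 (KK k0 m) σ v = 8 * KK k0 m := by
      unfold phi4
      rw [if_neg (by rw [hv, KK_succ]; omega), if_pos (by rw [hv, KK_succ])]
    rw [h2]
    have h3 : (0 : ℝ) < KK k0 m := by
      have : 0 < KK k0 m := by omega
      exact_mod_cast this
    push_cast
    rw [div_self (by positivity)]

/-- first arrival at a new scale -/
lemma phi4_first (K : ℤ) (hK : 2 ≤ K) (σ : Set (Sym2 (ℤ × Bool))) (v y : ℤ × Bool)
    (hI : Inv σ v) (hF : Fresh σ (K - 1)) (hadj : ladder.Adj v y)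
    (hnF : ¬ Fresh (insert s(v, y) σ) (K - 1)) :
    y.1 = K ∧ phi4 K (insert s(v, y) σ) y ≤ 7 * K + 1 := by
  obtain ⟨h1, h2⟩ := hI.cut (K - 1) (by omega) hF
  obtain ⟨c, i⟩ := v
  have hc : c ≤ K - 1 := h1
  have hy : y = (c + 1, i) ∧ c = K - 1 := by
    rcases (ladder_adj _ _).mp hadj with h | h | h
    · refine ⟨h, ?_⟩
      by_contra hne
      apply hnF
      rw [h]
      refine ⟨?_, ?_⟩
      · rw [bh_insert_h, hF.1]
        have : decide (K - 1 = c ∧ false = i) = false := by
          rw [decide_eq_false_iff_not]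
          rintro ⟨h, _⟩
          omega
        rw [this]
        rfl
      · rw [bh_insert_h, hF.2]
        have : decide (K - 1 = c ∧ true = i) = false := by
          rw [decide_eq_false_iff_not]
          rintro ⟨h, _⟩
          omega
        rw [this]
        rfl
    · exfalso
      apply hnF
      have h' : y = (c - 1, i) := h
      rw [h', insert_left]
      refine ⟨?_, ?_⟩
      · rw [bh_insert_h, hF.1]
        have : decide (K - 1 = c - 1 ∧ false = i) = false := by
          rw [decide_eq_false_iff_not]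
          rintro ⟨h, _⟩
          omega
        rw [this]
        rfl
      · rw [bh_insert_h, hF.2]
        have : decide (K - 1 = c - 1 ∧ true = i) = false := by
          rw [decide_eq_false_iff_not]
          rintro ⟨h, _⟩
          omega
        rw [this]
        rfl
    · exfalso
      apply hnF
      have h' : y = (c, !i) := h
      rw [h']
      exact ⟨by rw [bh_insert_u, hF.1], by rw [bh_insert_u, hF.2]⟩
  obtain ⟨hy1, hc1⟩ := hy
  subst hy1
  refine ⟨by show c + 1 = K; omega, ?_⟩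
  unfold phi4
  rw [if_neg (by show ¬ c + 1 ≤ 0; omega), if_neg (by show ¬ 2 * K ≤ c + 1; omega)]
  unfold W4
  have hf : fc (insert s(((c, i) : ℤ × Bool), (c + 1, i)) σ) (c + 1, i) ≤ 0 := f_nonpos _ _ _ _ _
  have hg : ∑ n ∈ Finset.Ico ((c + 1, i) : ℤ × Bool).1 (2 * K - 1),
      gc (insert s(((c, i) : ℤ × Bool), (c + 1, i)) σ) n
      = ∑ n ∈ Finset.Ico (c + 1) (2 * K - 1), (3 : ℤ) := by
    apply Finset.sum_congr rfl
    intro n hn
    have hn1 : c + 1 ≤ n := (Finset.mem_Ico.mp hn).1
    have hb : ∀ j, bh (insert s(((c, i) : ℤ × Bool), (c + 1, i)) σ) n j = false := by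
      intro j
      rw [bh_insert_h]
      have h3 : decide (n = c ∧ j = i) = false := by
        rw [decide_eq_false_iff_not]
        rintro ⟨h, _⟩
        omega
      have h4 : bh σ n j = false := by
        rw [← Bool.not_eq_true, bh_iff]
        intro h5
        have := (h2 _ _ h5).2
        have h6 : n + 1 ≤ K - 1 := this
        omega
      rw [h3, h4]
      rfl
    unfold gc
    rw [hb, hb]
    rfl
  rw [hg, Finset.sum_const, nsmul_eq_mul, Int.card_Ico]
  have h5 : ((2 * K - 1 - (c + 1)).toNat : ℤ) = 2 * K - 1 - (c + 1) := Int.toNat_of_nonneg (by omega)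
  rw [h5]
  show 4 * (c + 1) + 4 + _ + _ ≤ _
  linarith

lemma Psi_step (k0 : ℤ) (hk : 2 ≤ k0) (m : ℕ) (σ : Set (Sym2 (ℤ × Bool))) (v : ℤ × Bool)
    (hI : Inv σ v) (h0 : 0 < v.1) (h1 : v.1 < KK k0 m) (hF : Fresh σ (KK k0 m - 1)) :
    ∑ y ∈ opts ladder σ v, Psi k0 m (insert s(v, y) σ) y
      ≤ ((opts ladder σ v).card : ℝ) * Psi k0 m σ v := by
  induction m with
  | zero =>
    show ∑ y ∈ opts ladder σ v, (1 : ℝ) ≤ ((opts ladder σ v).card : ℝ) * 1
    rw [Finset.sum_const, nsmul_eq_mul]
  | succ m ih =>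
    have hK := KK_ge k0 hk m
    have hKpos : (0 : ℝ) < KK k0 m := by
      have : 0 < KK k0 m := by omega
      exact_mod_cast this
    by_cases h : Fresh σ (KK k0 m - 1)
    · have hvle := (hI.cut _ (by omega) h).1
      have h2 := ih (by omega) h
      rw [Psi_fresh k0 m σ v h]
      calc ∑ y ∈ opts ladder σ v, Psi k0 (m + 1) (insert s(v, y) σ) y
          ≤ ∑ y ∈ opts ladder σ v, (15 / 16) * Psi k0 m (insert s(v, y) σ) y := by
            apply Finset.sum_le_sum
            intro y hy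
            by_cases h3 : Fresh (insert s(v, y) σ) (KK k0 m - 1)
            · rw [Psi_fresh k0 m _ y h3]
            · rw [Psi_not_fresh k0 m _ y h3]
              have hadj : ladder.Adj v y := by
                have := opts_subset _ _ _ hy
                rwa [SimpleGraph.mem_neighborFinset] at this
              obtain ⟨h4, h5⟩ := phi4_first (KK k0 m) (by omega) σ v y hI h hadj h3
              have h6 := Psi_top k0 hk m _ y (inv_step hI hy) h4
              have h7 : (phi4 (KK k0 m) (insert s(v, y) σ) y : ℝ) ≤ 7 * KK k0 m + 1 := by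
                exact_mod_cast h5
              have h8 : (2 : ℝ) ≤ KK k0 m := by
                have : 2 ≤ KK k0 m := by omega
                exact_mod_cast this
              calc (phi4 (KK k0 m) (insert s(v, y) σ) y : ℝ) / (8 * KK k0 m) ≤ 15 / 16 := by
                    rw [div_le_iff₀ (by positivity)]
                    linarith
                _ ≤ _ := by linarith
        _ = (15 / 16) * ∑ y ∈ opts ladder σ v, Psi k0 m (insert s(v, y) σ) y := by
            rw [Finset.mul_sum]
        _ ≤ (15 / 16) * (((opts ladder σ v).card : ℝ) * Psi k0 m σ v) := by gcongr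
        _ = _ := by ring
    · rw [Psi_not_fresh k0 m σ v h]
      have h2 : ∀ y, ¬ Fresh (insert s(v, y) σ) (KK k0 m - 1) := by
        intro y hy
        exact h ⟨bh_mono (Set.subset_insert _ _) _ _ hy.1, bh_mono (Set.subset_insert _ _) _ _ hy.2⟩
      simp only [Psi_not_fresh k0 m _ _ (h2 _)]
      rw [← Finset.sum_div, ← mul_div_assoc]
      apply div_le_div_of_nonneg_right _ (by positivity)
      rw [KK_succ] at h1 hF
      have h3 := step_le (KK k0 m) σ v.1 v.2 hI h0 h1 hF
      exact_mod_cast h3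

lemma fresh_of_bound (σ : Set (Sym2 (ℤ × Bool))) (M n : ℤ) (hMn : M ≤ n)
    (h : ∀ a b, s(a, b) ∈ σ → a.1 ≤ M ∧ b.1 ≤ M) : Fresh σ n := by
  refine ⟨?_, ?_⟩
  all_goals
    rw [← Bool.not_eq_true, bh_iff]
    intro h5
    have := (h _ _ h5).2
    have h6 : n + 1 ≤ M := this
    omega

lemma Psi_start (k0 : ℤ) (hk : 2 ≤ k0) (m : ℕ) (σ : Set (Sym2 (ℤ × Bool))) (v : ℤ × Bool)
    (h : ∀ a b, s(a, b) ∈ σ → a.1 ≤ k0 - 1 ∧ b.1 ≤ k0 - 1) :
    Psi k0 m σ v = (15 / 16) ^ m := by
  induction m with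
  | zero => rfl
  | succ m ih =>
    have hK := KK_ge k0 hk m
    rw [Psi_fresh k0 m σ v (fresh_of_bound σ (k0 - 1) _ (by omega) h), ih, pow_succ]
    ring

lemma legal_inv {x : ℕ → ℤ × Bool} {t : ℕ} (hL : Legal ladder (0, false) x t) :
    Inv (visited x t) (x t) := by
  induction t with
  | zero =>
    have h1 : visited x 0 = ∅ := by
      rw [Set.eq_empty_iff_forall_notMem]
      rintro e ⟨s, hs, _⟩
      omega
    rw [h1, hL.1]
    exact inv_init
  | succ t ih =>
    rw [visited_succ]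
    exact inv_step (ih ⟨hL.1, fun s hs => hL.2 s (by omega)⟩) (hL.2 t (Nat.lt_succ_self t))

lemma visited_bound {x : ℕ → ℤ × Bool} {t : ℕ} {M : ℤ} (h : ∀ s ≤ t, (x s).1 ≤ M) :
    ∀ a b, s(a, b) ∈ visited x t → a.1 ≤ M ∧ b.1 ≤ M := by
  rintro a b ⟨s, hs, he⟩
  rw [Sym2.eq_iff] at he
  rcases he with ⟨rfl, rfl⟩ | ⟨rfl, rfl⟩
  · exact ⟨h s hs.le, h (s + 1) hs⟩
  · exact ⟨h (s + 1) hs, h s hs.le⟩

section Process

variable {Ω : Type} [MeasurableSpace Ω] {P : Measure Ω} [IsProbabilityMeasure P]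
  {X : ℕ → Ω → ℤ × Bool}

/-- escape to the right after time `t` -/
def Esc (X : ℕ → Ω → ℤ × Bool) (t : ℕ) : Set Ω :=
  {ω | (∀ s, t ≤ s → 0 < (X s ω).1) ∧ (∀ M : ℤ, ∃ s, t ≤ s ∧ M ≤ (X s ω).1) ∧
    ∀ s, ladder.Adj (X s ω) (X (s + 1) ω)}

theorem esc_cyl_null (h : IsGRW ladder P X (0, false)) (t : ℕ) (x : ℕ → ℤ × Bool)
    (hL : Legal ladder (0, false) x t) : P (cyl X x t ∩ Esc X t) = 0 := by
  obtain ⟨k0, hk, hk2⟩ : ∃ k0 : ℤ, 2 ≤ k0 ∧ ∀ s ≤ t, (x s).1 ≤ k0 - 1 := by
    obtain ⟨B, hB⟩ := ((Set.finite_Iic t).image (fun s => (x s).1)).bddAbove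
    refine ⟨max 2 (B + 1), le_max_left _ _, fun s hs => ?_⟩
    have h1 : (x s).1 ≤ B := hB ⟨s, hs, rfl⟩
    have h2 : B + 1 ≤ max 2 (B + 1) := le_max_right _ _
    omega
  have key : ∀ m : ℕ, P (cyl X x t ∩ Esc X t) ≤ ENNReal.ofReal ((15 / 16) ^ m) := by
    intro m
    have hK := KK_ge k0 hk m
    have hmax := maximal h ladder_nbr_nonempty (fun x s => (x s).1 = KK k0 m)
      (fun x s => (x s).1 ≤ 0 ∨ ¬ Fresh (visited x s) (KK k0 m - 1))
      (fun x s => ENNReal.ofReal (Psi k0 m (visited x s) (x s))) t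
      (by
        intro x x' s hxx hG
        show (x' s).1 = _
        rw [← hxx s le_rfl]
        exact hG)
      (by
        intro x x' s hxx hB
        show (x' s).1 ≤ 0 ∨ ¬ Fresh (visited x' s) (KK k0 m - 1)
        rw [← hxx s le_rfl, ← visited_congr hxx]
        exact hB)
      (by
        intro x s _ hLs hG
        show 1 ≤ ENNReal.ofReal _
        rw [← ENNReal.ofReal_one]
        exact ENNReal.ofReal_le_ofReal (Psi_top k0 hk m _ _ (legal_inv hLs) hG))
      (by
        intro x s _ hLs hG hB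
        push Not at hB
        obtain ⟨hB1, hB2⟩ := hB
        have hI := legal_inv hLs
        have hle := (hI.cut _ (by omega) hB2).1
        have hag : ∀ y, ∀ r ≤ s, x r = Function.update x (s + 1) y r := by
          intro y r hr
          rw [Function.update_of_ne (by omega)]
        have hvis : ∀ y, visited (Function.update x (s + 1) y) (s + 1)
            = insert s(x s, y) (visited x s) := by
          intro y
          rw [visited_succ, ← visited_congr (hag y), ← hag y s le_rfl, Function.update_self]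
        simp only [hvis, Function.update_self]
        rw [← ENNReal.ofReal_sum_of_nonneg (fun y _ => Psi_nonneg k0 hk m _ _),
          ← ENNReal.ofReal_natCast, ← ENNReal.ofReal_mul (by positivity)]
        exact ENNReal.ofReal_le_ofReal (Psi_step k0 hk m _ _ hI hB1 (by omega) hB2))
      x t le_rfl hL
    rw [Psi_start k0 hk m _ _ (visited_bound hk2)] at hmax
    have hsub : cyl X x t ∩ Esc X t ⊆ cyl X x t ∩ {ω | ∃ s, t ≤ s ∧ (X s ω).1 = KK k0 m ∧
        ∀ r, t ≤ r → r < s → ¬ ((X r ω).1 ≤ 0 ∨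
          ¬ Fresh (visited (fun r => X r ω) r) (KK k0 m - 1))} := by
      rintro ω ⟨hω, h1, h2, h3⟩
      refine ⟨hω, ?_⟩
      classical
      have hex : ∃ s, t ≤ s ∧ KK k0 m ≤ (X s ω).1 := h2 _
      obtain ⟨s, ⟨hs1, hs2⟩, hmin⟩ : ∃ s, (t ≤ s ∧ KK k0 m ≤ (X s ω).1) ∧
          ∀ r, r < s → ¬ (t ≤ r ∧ KK k0 m ≤ (X r ω).1) :=
        ⟨Nat.find hex, Nat.find_spec hex, fun r hr => Nat.find_min hex hr⟩
      have hst : t < s := by
        rcases hs1.eq_or_lt with h4 | h4
        · exfalso
          subst h4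
          rw [hω t le_rfl] at hs2
          have := hk2 t le_rfl
          omega
        · exact h4
      have hlt : ∀ r, r < s → (X r ω).1 ≤ KK k0 m - 1 := by
        intro r hr
        by_cases hrt : t ≤ r
        · have := hmin r hr
          push Not at this
          have := this hrt
          omega
        · rw [hω r (by omega)]
          have := hk2 r (by omega)
          omega
      refine ⟨s, hs1, ?_, ?_⟩
      · have h5 := h3 (s - 1)
        rw [Nat.sub_add_cancel (by omega)] at h5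
        have h6 := hlt (s - 1) (by omega)
        rcases (ladder_adj _ _).mp h5 with h7 | h7 | h7
        · have h8 := congrArg Prod.fst h7
          have h9 : (X s ω).1 = (X (s - 1) ω).1 + 1 := h8
          omega
        · have h8 := congrArg Prod.fst h7
          have h9 : (X s ω).1 = (X (s - 1) ω).1 - 1 := h8
          omega
        · have h8 := congrArg Prod.fst h7
          have h9 : (X s ω).1 = (X (s - 1) ω).1 := h8
          omega
      · intro r hr1 hr2 hbad
        rcases hbad with hbad | hbad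
        · have := h1 r hr1
          omega
        · apply hbad
          exact fresh_of_bound _ (KK k0 m - 1) _ le_rfl
            (visited_bound (x := fun r => X r ω) (fun r' hr' => hlt r' (by omega)))
    calc _ ≤ _ := measure_mono hsub
      _ ≤ _ := hmax
      _ ≤ 1 * ENNReal.ofReal ((15 / 16) ^ m) := by
          gcongr
          exact prob_le_one
      _ = _ := one_mul _
  have hlim : Tendsto (fun m : ℕ => ENNReal.ofReal ((15 / 16 : ℝ) ^ m)) atTop (nhds 0) := by
    rw [← ENNReal.ofReal_zero]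
    exact ENNReal.tendsto_ofReal (tendsto_pow_atTop_nhds_zero_of_lt_one (by norm_num) (by norm_num))
  exact le_antisymm (ge_of_tendsto' hlim key) zero_le

theorem esc_null (h : IsGRW ladder P X (0, false)) (t : ℕ) : P (Esc X t) = 0 :=
  null_of_cyl h _ t (fun x hL => esc_cyl_null h t x hL)

end Process

end Pool.Agent.X142.GRW
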