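import Mathlib
import Pool.Agent.X142.GRW.Psi

/-!
Graph automorphisms, existence of the greedy random walk, and recurrence on the ladder.
-/

open MeasureTheory Finset Filter
open scoped ENNReal

namespace Pool.Agent.X142.GRW

section General

variable {V : Type} [DecidableEq V] {G : SimpleGraph V} [G.LocallyFinite]

lemma mem_opts_iff (σ : Set (Sym2 V)) (v y : V) : y ∈ opts G σ v ↔
    G.Adj v y ∧ ((∃ w, G.Adj v w ∧ s(v, w) ∉ σ) → s(v, y) ∉ σ) := by
  by_cases h : ∃ w ∈ G.neighborFinset v, s(v, w) ∉ σ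
  · rw [mem_opts_of_fresh G σ v h, SimpleGraph.mem_neighborFinset]
    obtain ⟨w, hw, hw2⟩ := h
    rw [SimpleGraph.mem_neighborFinset] at hw
    constructor
    · rintro ⟨h1, h2⟩
      exact ⟨h1, fun _ => h2⟩
    · rintro ⟨h1, h2⟩
      exact ⟨h1, h2 ⟨w, hw, hw2⟩⟩
  · rw [opts_of_not_fresh G σ v h, SimpleGraph.mem_neighborFinset]
    constructor
    · intro h1
      refine ⟨h1, ?_⟩
      rintro ⟨w, hw, hw2⟩
      exact absurd ⟨w, by rw [SimpleGraph.mem_neighborFinset]; exact hw, hw2⟩ h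
    · rintro ⟨h1, _⟩
      exact h1

omit [DecidableEq V] [G.LocallyFinite] in
lemma visited_map (ψ : G ≃g G) (x : ℕ → V) (t : ℕ) (v w : V) :
    s(ψ v, ψ w) ∈ visited (fun s => ψ (x s)) t ↔ s(v, w) ∈ visited x t := by
  constructor
  · rintro ⟨s, hs, h⟩
    refine ⟨s, hs, ?_⟩
    rw [Sym2.eq_iff] at h ⊢
    rcases h with ⟨h1, h2⟩ | ⟨h1, h2⟩
    · exact Or.inl ⟨ψ.injective h1, ψ.injective h2⟩
    · exact Or.inr ⟨ψ.injective h1, ψ.injective h2⟩
  · rintro ⟨s, hs, h⟩
    refine ⟨s, hs, ?_⟩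
    rw [Sym2.eq_iff] at h ⊢
    rcases h with ⟨rfl, rfl⟩ | ⟨rfl, rfl⟩
    · exact Or.inl ⟨rfl, rfl⟩
    · exact Or.inr ⟨rfl, rfl⟩

lemma mem_opts_map (ψ : G ≃g G) (x : ℕ → V) (t : ℕ) (v y : V) :
    ψ y ∈ opts G (visited (fun s => ψ (x s)) t) (ψ v) ↔ y ∈ opts G (visited x t) v := by
  rw [mem_opts_iff, mem_opts_iff, visited_map, ψ.map_adj_iff]
  have : (∃ w, G.Adj (ψ v) w ∧ s(ψ v, w) ∉ visited (fun s => ψ (x s)) t) ↔
      (∃ w, G.Adj v w ∧ s(v, w) ∉ visited x t) := by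
    constructor
    · rintro ⟨w, h1, h2⟩
      obtain ⟨w', rfl⟩ := ψ.surjective w
      exact ⟨w', ψ.map_adj_iff.mp h1, by rwa [visited_map] at h2⟩
    · rintro ⟨w, h1, h2⟩
      exact ⟨ψ w, ψ.map_adj_iff.mpr h1, by rwa [visited_map]⟩
  rw [this]

lemma prob_map (ψ : G ≃g G) (x : ℕ → V) (t : ℕ) (y : V) :
    prob G (fun s => ψ (x s)) t (ψ y) = prob G x t y := by
  unfold prob
  have hcard : (opts G (visited (fun s => ψ (x s)) t) (ψ (x t))).card
      = (opts G (visited x t) (x t)).card := by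
    symm
    apply Finset.card_bij (fun y _ => ψ y)
    · intro y hy
      exact (mem_opts_map ψ x t (x t) y).mpr hy
    · intro a _ b _ h
      exact ψ.injective h
    · intro b hb
      obtain ⟨b', rfl⟩ := ψ.surjective b
      exact ⟨b', (mem_opts_map ψ x t (x t) b').mp hb, rfl⟩
  simp only [hcard, mem_opts_map]

theorem IsGRW.map {Ω : Type} [MeasurableSpace Ω] {P : Measure Ω} {X : ℕ → Ω → V} {o : V}
    (h : IsGRW G P X o) (ψ : G ≃g G) : IsGRW G P (fun t ω => ψ (X t ω)) (ψ o) := by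
  have hsym : ∀ a b, ψ a = b ↔ a = ψ.symm b := fun a b => ψ.toEquiv.apply_eq_iff_eq_symm_apply
  refine ⟨fun t v => ?_, ?_, fun t x y => ?_⟩
  · have : {ω | ψ (X t ω) = v} = {ω | X t ω = ψ.symm v} := by
      ext ω
      exact hsym _ _
    rw [this]
    exact h.meas t _
  · have : {ω | ψ (X 0 ω) = ψ o} = {ω | X 0 ω = o} := by
      ext ω
      exact ψ.injective.eq_iff
    rw [this]
    exact h.start
  · have h1 : {ω | (∀ s ≤ t, ψ (X s ω) = x s) ∧ ψ (X (t + 1) ω) = y}
        = {ω | (∀ s ≤ t, X s ω = ψ.symm (x s)) ∧ X (t + 1) ω = ψ.symm y} := by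
      ext ω
      show ((∀ s ≤ t, ψ (X s ω) = x s) ∧ ψ (X (t + 1) ω) = y) ↔
        ((∀ s ≤ t, X s ω = ψ.symm (x s)) ∧ X (t + 1) ω = ψ.symm y)
      simp only [hsym]
    have h2 : {ω | ∀ s ≤ t, ψ (X s ω) = x s} = {ω | ∀ s ≤ t, X s ω = ψ.symm (x s)} := by
      ext ω
      show (∀ s ≤ t, ψ (X s ω) = x s) ↔ (∀ s ≤ t, X s ω = ψ.symm (x s))
      simp only [hsym]
    rw [h1, h2, h.step t (fun s => ψ.symm (x s)) (ψ.symm y), ← prob_map ψ]
    simp only [RelIso.apply_symm_apply]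

lemma tsum_prob (hne : ∀ v, (G.neighborFinset v).Nonempty) (x : ℕ → V) (t : ℕ) :
    ∑' y, prob G x t y = 1 := by
  have hO := opts_nonempty G (visited x t) (x t) (hne _)
  have hcard : ((opts G (visited x t) (x t)).card : ℝ≥0∞) ≠ 0 := by
    have := Finset.card_pos.mpr hO
    exact_mod_cast this.ne'
  rw [tsum_eq_sum (s := opts G (visited x t) (x t))]
  · rw [Finset.sum_congr rfl (g := fun _ => ((opts G (visited x t) (x t)).card : ℝ≥0∞)⁻¹)
      (fun y hy => by unfold prob; rw [if_pos hy])]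
    rw [Finset.sum_const, nsmul_eq_mul, ENNReal.mul_inv_cancel hcard (by simp)]
  · intro y hy
    unfold prob
    rw [if_neg hy]

/-- The greedy random walk exists. -/
theorem exists_grw [Countable V] (hne : ∀ v, (G.neighborFinset v).Nonempty) (o : V) :
    ∃ (Ω : Type) (_ : MeasurableSpace Ω) (P : Measure Ω) (X : ℕ → Ω → V),
      IsProbabilityMeasure P ∧ IsGRW G P X o := by
  obtain ⟨mΩ, P, hP, h1, h2, h3⟩ := exists_history_chain (prob G) (fun x n => tsum_prob hne x n)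
    (fun x x' n y h => prob_congr G y h) o
  exact ⟨ℕ → V, mΩ, P, fun t ω => ω t, hP, h1, h2, h3⟩

variable {Ω : Type} [MeasurableSpace Ω] {P : Measure Ω} [IsProbabilityMeasure P] {X : ℕ → Ω → V}
  {o : V}

lemma ae_steps [Countable V] (h : IsGRW G P X o) (hne : ∀ v, (G.neighborFinset v).Nonempty) :
    ∀ᵐ ω ∂P, ∀ t, G.Adj (X t ω) (X (t + 1) ω) := by
  rw [ae_all_iff]
  intro t
  rw [ae_iff]
  apply null_of_cyl h _ t
  intro x _
  refine measure_mono_null ?_ (next_mem h hne x t)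
  rintro ω ⟨hω, h2⟩
  refine ⟨hω, fun h3 => h2 ?_⟩
  have := opts_subset _ _ _ h3
  rw [SimpleGraph.mem_neighborFinset, ← hω t le_rfl] at this
  exact this

end General

/-! ## The ladder -/

/-- translation by `-n0` columns, and exchange of the rows if `b0` -/
def shiftIso (n0 : ℤ) (b0 : Bool) : ladder ≃g ladder where
  toFun v := (v.1 - n0, xor v.2 b0)
  invFun v := (v.1 + n0, xor v.2 b0)
  left_inv v := by
    obtain ⟨c, i⟩ := v
    simp
  right_inv v := by
    obtain ⟨c, i⟩ := v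
    simp
  map_rel_iff' := by
    rintro ⟨c, i⟩ ⟨e, j⟩
    show ((xor i b0 = xor j b0 ∧ (e - n0 = c - n0 + 1 ∨ c - n0 = e - n0 + 1)) ∨
      (c - n0 = e - n0 ∧ xor i b0 ≠ xor j b0)) ↔
      ((i = j ∧ (e = c + 1 ∨ c = e + 1)) ∨ (c = e ∧ i ≠ j))
    have h1 : (xor i b0 = xor j b0) ↔ i = j := by
      cases i <;> cases j <;> cases b0 <;> simp
    rw [Ne, h1]
    constructor
    · rintro (⟨h1, h2⟩ | ⟨h1, h2⟩)
      · exact Or.inl ⟨h1, by omega⟩
      · exact Or.inr ⟨by omega, h2⟩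
    · rintro (⟨h1, h2⟩ | ⟨h1, h2⟩)
      · exact Or.inl ⟨h1, by omega⟩
      · exact Or.inr ⟨by omega, h2⟩

/-- reflection -/
def reflIso : ladder ≃g ladder where
  toFun v := (-v.1, v.2)
  invFun v := (-v.1, v.2)
  left_inv v := by
    obtain ⟨c, i⟩ := v
    simp
  right_inv v := by
    obtain ⟨c, i⟩ := v
    simp
  map_rel_iff' := by
    rintro ⟨c, i⟩ ⟨e, j⟩
    show ((i = j ∧ (-e = -c + 1 ∨ -c = -e + 1)) ∨ (-c = -e ∧ i ≠ j)) ↔
      ((i = j ∧ (e = c + 1 ∨ c = e + 1)) ∨ (c = e ∧ i ≠ j))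
    constructor
    · rintro (⟨h1, h2⟩ | ⟨h1, h2⟩)
      · exact Or.inl ⟨h1, by omega⟩
      · exact Or.inr ⟨by omega, h2⟩
    · rintro (⟨h1, h2⟩ | ⟨h1, h2⟩)
      · exact Or.inl ⟨h1, by omega⟩
      · exact Or.inr ⟨by omega, h2⟩

lemma ladder_connected : ladder.Connected := by
  have h1 : ∀ n : ℤ, ladder.Reachable (0, false) (n, false) := by
    intro n
    induction n using Int.induction_on with
    | zero => exact SimpleGraph.Reachable.refl _
    | succ n ih =>
      exact ih.trans (SimpleGraph.Adj.reachable ((ladder_adj _ _).mpr (Or.inl rfl)))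
    | pred n ih =>
      exact ih.trans (SimpleGraph.Adj.reachable ((ladder_adj _ _).mpr (Or.inr (Or.inl rfl))))
  have h2 : ∀ v : ℤ × Bool, ladder.Reachable (0, false) v := by
    rintro ⟨n, i⟩
    cases i with
    | false => exact h1 n
    | true =>
      exact (h1 n).trans (SimpleGraph.Adj.reachable ((ladder_adj _ _).mpr (Or.inr (Or.inr rfl))))
  haveI : Nonempty (ℤ × Bool) := ⟨(0, false)⟩
  exact ⟨fun a b => (h2 a).symm.trans (h2 b)⟩

section Ladder

variable {Ω : Type} [MeasurableSpace Ω] {P : Measure Ω} [IsProbabilityMeasure P]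
  {X : ℕ → Ω → ℤ × Bool}

lemma pos_forever (x : ℕ → ℤ × Bool) (hadj : ∀ s, ladder.Adj (x s) (x (s + 1))) (t : ℕ)
    (h0 : ∀ s, t ≤ s → (x s).1 ≠ 0) (ht : 0 < (x t).1) : ∀ s, t ≤ s → 0 < (x s).1 := by
  intro s hs
  induction s, hs using Nat.le_induction with
  | base => exact ht
  | succ s hs ih =>
    have h1 := h0 (s + 1) (by omega)
    rcases (ladder_adj _ _).mp (hadj s) with h | h | h
    · have h2 : (x (s + 1)).1 = (x s).1 + 1 := congrArg Prod.fst h
      omega
    · have h2 : (x (s + 1)).1 = (x s).1 - 1 := congrArg Prod.fst h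
      omega
    · have h2 : (x (s + 1)).1 = (x s).1 := by rw [h]
      omega

theorem recurrent_origin (h : IsGRW ladder P X (0, false)) :
    ∀ᵐ ω ∂P, ∃ᶠ t in atTop, X t ω = (0, false) := by
  have hmap : IsGRW ladder P (fun t ω => reflIso (X t ω)) (0, false) := h.map reflIso
  have e1 : ∀ᵐ ω ∂P, ∀ t, ω ∉ Esc X t := by
    rw [ae_all_iff]
    intro t
    rw [ae_iff]
    simp only [not_not]
    exact esc_null h t
  have e2 : ∀ᵐ ω ∂P, ∀ t, ω ∉ Esc (fun t ω => reflIso (X t ω)) t := by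
    rw [ae_all_iff]
    intro t
    rw [ae_iff]
    simp only [not_not]
    exact esc_null hmap t
  filter_upwards [ae_all h ladder_nbr_nonempty ladder_connected, ae_steps h ladder_nbr_nonempty,
    e1, e2] with ω hall hadj hE1 hE2
  by_contra hcon
  have hfin : ∀ b, ∀ᶠ t in atTop, X t ω ≠ b := by
    intro b
    by_contra hb
    rw [not_eventually] at hb
    simp only [ne_eq, not_not] at hb
    exact hcon (hall b _ hb)
  have hlarge : ∀ M : ℤ, ∀ᶠ t in atTop, M < |(X t ω).1| := by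
    intro M
    have h1 : ∀ᶠ t in atTop, ∀ b ∈ (Finset.Icc (-M) M) ×ˢ (Finset.univ : Finset Bool),
        X t ω ≠ b := by
      rw [Filter.eventually_all_finset]
      exact fun b _ => hfin b
    filter_upwards [h1] with t ht
    by_contra hle
    push Not at hle
    apply ht (X t ω) _ rfl
    rw [Finset.mem_product, Finset.mem_Icc]
    exact ⟨abs_le.mp hle, Finset.mem_univ _⟩
  obtain ⟨t, ht⟩ := eventually_atTop.mp (hlarge 0)
  have hne0 : ∀ s, t ≤ s → (X s ω).1 ≠ 0 := by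
    intro s hs h0
    have := ht s hs
    rw [h0, abs_zero] at this
    exact lt_irrefl _ this
  rcases lt_trichotomy (X t ω).1 0 with hneg | hz | hpos
  · -- negative side
    apply hE2 t
    have hadj2 : ∀ s, ladder.Adj (reflIso (X s ω)) (reflIso (X (s + 1) ω)) :=
      fun s => reflIso.map_adj_iff.mpr (hadj s)
    have hp := pos_forever (fun s => reflIso (X s ω)) hadj2 t
      (fun s hs => by
        show -(X s ω).1 ≠ 0
        have := hne0 s hs
        omega) (by show 0 < -(X t ω).1; omega)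
    refine ⟨hp, fun M => ?_, hadj2⟩
    obtain ⟨s, hs1, hs2⟩ := ((hlarge M).and (eventually_ge_atTop t)).exists
    refine ⟨s, hs2, ?_⟩
    have h3 : 0 < -(X s ω).1 := hp s hs2
    show M ≤ -(X s ω).1
    rw [abs_of_neg (by omega)] at hs1
    omega
  · exact hne0 t le_rfl hz
  · apply hE1 t
    have hp := pos_forever (fun s => X s ω) hadj t hne0 hpos
    refine ⟨hp, fun M => ?_, hadj⟩
    obtain ⟨s, hs1, hs2⟩ := ((hlarge M).and (eventually_ge_atTop t)).exists
    refine ⟨s, hs2, ?_⟩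
    have h3 : 0 < (X s ω).1 := hp s hs2
    rw [abs_of_pos h3] at hs1
    omega

/-- **The greedy random walk on the ladder is recurrent.** -/
theorem recurrent {o : ℤ × Bool} (h : IsGRW ladder P X o) : ∀ᵐ ω ∂P, ∃ᶠ t in atTop, X t ω = o := by
  have ho : shiftIso o.1 o.2 o = (0, false) := by
    show (o.1 - o.1, xor o.2 o.2) = (0, false)
    simp
  have h1 := h.map (shiftIso o.1 o.2)
  rw [ho] at h1
  filter_upwards [recurrent_origin h1] with ω hω
  refine hω.mono fun t ht => ?_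
  rw [← ho] at ht
  exact (shiftIso o.1 o.2).injective ht

end Ladder

end Pool.Agent.X142.GRW
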